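import Mathlib

set_option autoImplicit false

/-!
Small toolkit: primitive recursiveness of bounded searches over lists.
-/

namespace Pool.Agent.Lib.MP_f7c71a_lc

variable {α β γ : Type} [Primcodable α] [Primcodable β] [Primcodable γ]

theorem prim_all {f : α → List β} {p : α → β → Bool} (hf : Primrec f) (hp : Primrec₂ p) :
    Primrec (fun a => (f a).all (p a)) := by
  have h : Primrec (fun a => (f a).foldr (fun b acc => p a b && acc) true) := by
    refine Primrec.list_foldr (h := fun a (y : β × Bool) => p a y.1 && y.2) hf
      (Primrec.const true) ?_
    exact Primrec.and.comp (hp.comp Primrec.fst (Primrec.fst.comp Primrec.snd))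
      (Primrec.snd.comp Primrec.snd)
  refine h.of_eq fun a => ?_
  generalize f a = l
  induction l with
  | nil => rfl
  | cons b l ih => simp only [List.foldr_cons, List.all_cons, ih]

theorem prim_any {f : α → List β} {p : α → β → Bool} (hf : Primrec f) (hp : Primrec₂ p) :
    Primrec (fun a => (f a).any (p a)) := by
  have h : Primrec (fun a => (f a).foldr (fun b acc => p a b || acc) false) := by
    refine Primrec.list_foldr (h := fun a (y : β × Bool) => p a y.1 || y.2) hf
      (Primrec.const false) ?_
    exact Primrec.or.comp (hp.comp Primrec.fst (Primrec.fst.comp Primrec.snd))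
      (Primrec.snd.comp Primrec.snd)
  refine h.of_eq fun a => ?_
  generalize f a = l
  induction l with
  | nil => rfl
  | cons b l ih => simp only [List.foldr_cons, List.any_cons, ih]

theorem prim_filter {f : α → List β} {p : α → β → Bool} (hf : Primrec f) (hp : Primrec₂ p) :
    Primrec (fun a => (f a).filter (p a)) := by
  have h : Primrec (fun a => (f a).filterMap (fun b => cond (p a b) (some b) none)) := by
    refine Primrec.listFilterMap hf ?_
    exact Primrec.cond hp (Primrec.option_some.comp Primrec.snd) (Primrec.const none)
  refine h.of_eq fun a => ?_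
  generalize f a = l
  induction l with
  | nil => rfl
  | cons b l ih =>
    simp only [List.filterMap_cons, List.filter_cons, ih]
    cases p a b <;> simp

theorem prim_bcond {c : α → Bool} {f g : α → β} (hc : Primrec c) (hf : Primrec f)
    (hg : Primrec g) : Primrec (fun a => bif c a then f a else g a) :=
  Primrec.cond hc hf hg

theorem prim_pow {f g : α → ℕ} (hf : Primrec f) (hg : Primrec g) :
    Primrec (fun a => f a ^ g a) := by
  have h : Primrec₂ (fun a b : ℕ => a ^ b) := Primrec₂.unpaired'.1 Nat.Primrec.pow
  exact h.comp hf hg

theorem prim_max {f g : α → ℕ} (hf : Primrec f) (hg : Primrec g) :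
    Primrec (fun a => max (f a) (g a)) := Primrec.nat_max.comp hf hg

theorem prim_dle {f g : α → ℕ} (hf : Primrec f) (hg : Primrec g) :
    Primrec (fun a => decide (f a ≤ g a)) := PrimrecRel.decide Primrec.nat_le |>.comp hf hg

theorem prim_dlt {f g : α → ℕ} (hf : Primrec f) (hg : Primrec g) :
    Primrec (fun a => decide (f a < g a)) := PrimrecRel.decide Primrec.nat_lt |>.comp hf hg

theorem prim_deq [DecidableEq β] {f g : α → β} (hf : Primrec f) (hg : Primrec g) :
    Primrec (fun a => decide (f a = g a)) := PrimrecRel.decide Primrec.eq |>.comp hf hg

theorem prim_replicate (b : β) : Primrec (fun m : ℕ => List.replicate m b) := by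
  have h : Primrec (fun m : ℕ => (List.range m).map (fun _ => b)) :=
    Primrec.list_map Primrec.list_range (Primrec₂.const b)
  refine h.of_eq fun m => ?_
  simp

/-- strings of length `< m` -/
def strs : ℕ → List (List Bool)
  | 0 => []
  | m + 1 => [] :: ((strs m).map (List.cons false) ++ (strs m).map (List.cons true))

theorem mem_strs {m : ℕ} {s : List Bool} : s ∈ strs m ↔ s.length < m := by
  induction m generalizing s with
  | zero => simp [strs]
  | succ m ih =>
    simp only [strs, List.mem_cons, List.mem_append, List.mem_map, ih]
    cases s with
    | nil => simp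
    | cons b s => cases b <;> simp

theorem strs_length (m : ℕ) : (strs m).length + 1 = 2 ^ m := by
  induction m with
  | zero => simp [strs]
  | succ m ih =>
    simp only [strs, List.length_cons, List.length_append, List.length_map, pow_succ, ← ih]
    ring

theorem strs_primrec : Primrec strs := by
  have h : Primrec (Nat.rec (motive := fun _ => List (List Bool)) []
      (fun _ (ih : List (List Bool)) =>
        [] :: (ih.map (List.cons false) ++ ih.map (List.cons true)))) := by
    refine Primrec.nat_rec₁ (f := fun _ (ih : List (List Bool)) =>
        [] :: (ih.map (List.cons false) ++ ih.map (List.cons true))) [] ?_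
    refine Primrec.list_cons.comp (Primrec.const []) ?_
    refine Primrec.list_append.comp ?_ ?_
    · exact Primrec.list_map Primrec.snd
        (Primrec.list_cons.comp (Primrec.const false) Primrec.snd).to₂
    · exact Primrec.list_map Primrec.snd
        (Primrec.list_cons.comp (Primrec.const true) Primrec.snd).to₂
  refine h.of_eq fun m => ?_
  induction m with
  | zero => rfl
  | succ m ih => simp only [strs, ← ih]

/-- all (association list) tables with keys in `ps` and values in `vs` -/
def tabs (vs : List (List Bool)) (ps : List (List Bool)) : List (List (List Bool × List Bool)) :=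
  ps.foldr (fun p acc => acc ++ acc.flatMap (fun R => vs.map (fun v => (p, v) :: R))) [[]]

theorem tabs_primrec : Primrec₂ tabs := by
  unfold tabs
  refine Primrec.list_foldr (f := fun z : List (List Bool) × List (List Bool) => z.2)
    (g := fun _ => [[]])
    (h := fun (z : List (List Bool) × List (List Bool))
      (y : List Bool × List (List (List Bool × List Bool))) =>
        y.2 ++ y.2.flatMap (fun R => z.1.map (fun v => (y.1, v) :: R)))
    Primrec.snd (Primrec.const _) ?_
  refine Primrec.list_append.comp (Primrec.snd.comp Primrec.snd) ?_
  refine Primrec.list_flatMap (Primrec.snd.comp Primrec.snd) ?_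
  refine Primrec.list_map (Primrec.fst.comp (Primrec.fst.comp Primrec.fst)) ?_
  refine Primrec.list_cons.comp ?_ (Primrec.snd.comp Primrec.fst)
  exact Primrec.pair (Primrec.fst.comp (Primrec.snd.comp (Primrec.fst.comp Primrec.fst)))
    Primrec.snd

/-- table lookup -/
def lk (R : List (List Bool × List Bool)) (p : List Bool) : Option (List Bool) :=
  (R.filter (fun e => decide (e.1 = p))).head?.map Prod.snd

theorem lk_primrec : Primrec₂ lk := by
  unfold lk
  refine Primrec.option_map
    (f := fun x : List (List Bool × List Bool) × List Bool =>
      (x.1.filter (fun e => decide (e.1 = x.2))).head?)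
    (g := fun _ e => e.2) ?_ (Primrec.snd.comp Primrec.snd)
  refine Primrec.list_head?.comp ?_
  exact prim_filter (f := fun x : List (List Bool × List Bool) × List Bool => x.1)
    (p := fun x e => decide (e.1 = x.2)) Primrec.fst
    (prim_deq (Primrec.fst.comp Primrec.snd) (Primrec.snd.comp Primrec.fst))

theorem lk_cons_self (R : List (List Bool × List Bool)) (p v : List Bool) :
    lk ((p, v) :: R) p = some v := by
  simp [lk]

theorem lk_cons_ne (R : List (List Bool × List Bool)) {p q : List Bool} (v : List Bool)
    (h : q ≠ p) : lk ((p, v) :: R) q = lk R q := by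
  simp [lk, Ne.symm h]

theorem exists_tab (vs : List (List Bool)) (f : List Bool → Option (List Bool))
    (ps : List (List Bool)) (hf : ∀ p ∈ ps, ∀ v, f p = some v → v ∈ vs) :
    ∃ R ∈ tabs vs ps, ∀ p ∈ ps, ∀ v, f p = some v → lk R p = some v := by
  induction ps with
  | nil => exact ⟨[], by simp [tabs], by simp⟩
  | cons p ps ih =>
    obtain ⟨R, hR, hR'⟩ := ih (fun q hq => hf q (List.mem_cons_of_mem _ hq))
    have ht : tabs vs (p :: ps) =
      tabs vs ps ++ (tabs vs ps).flatMap (fun R => vs.map (fun v => (p, v) :: R)) := rfl
    cases h : f p with
    | none =>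
      refine ⟨R, by rw [ht]; exact List.mem_append_left _ hR, ?_⟩
      intro q hq v hv
      rcases List.mem_cons.1 hq with rfl | hq
      · rw [h] at hv; cases hv
      · exact hR' q hq v hv
    | some w =>
      refine ⟨(p, w) :: R, ?_, ?_⟩
      · rw [ht]
        refine List.mem_append_right _ ?_
        rw [List.mem_flatMap]
        exact ⟨R, hR, List.mem_map.2 ⟨w, hf p List.mem_cons_self w h, rfl⟩⟩
      · intro q hq v hv
        by_cases hqp : q = p
        · subst hqp
          rw [h] at hv
          cases hv
          exact lk_cons_self R q w
        · rw [lk_cons_ne R w hqp]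
          rcases List.mem_cons.1 hq with rfl | hq
          · exact absurd rfl hqp
          · exact hR' q hq v hv

end Pool.Agent.Lib.MP_f7c71a_lc
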