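import Pool.Agent.Lib.MP_f26228_lc.Val
import Pool.Agent.Lib.MP_f7c71a_lc.Prim

set_option autoImplicit false

/-!
Searching over initial segments of an oracle is recursive in the oracle; functions recursive in
an oracle are given by codes evaluated on initial segments.
-/

namespace Pool.Agent.Lib.MP_f7c71a_lc

open Nat.Partrec (Code)
open Nat.Partrec.Code Encodable
open Pool.Agent.Lib.MP_f26228_lc (seg seg_length seg_getElem? seg_prefix seg_take use_principle
  val val_primrec val_mono valt_sound val_complete exists_code_functional Mono)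

theorem seg_succ {α : Type} (O : ℕ → α) (M : ℕ) : seg O (M + 1) = seg O M ++ [O M] := by
  simp [seg, List.range_succ]

theorem nrec_prim {O : Set (ℕ →. ℕ)} {f : ℕ → ℕ} (hf : Primrec f) :
    Nat.RecursiveIn O (fun n => Part.some (f n)) :=
  Nat.Primrec.recursiveIn (Primrec.nat_iff.1 hf)

theorem nrec_comp {O : Set (ℕ →. ℕ)} {f : ℕ →. ℕ} {g : ℕ → ℕ} (hf : Nat.RecursiveIn O f)
    (hg : Nat.RecursiveIn O (fun n => Part.some (g n))) :
    Nat.RecursiveIn O (fun n => f (g n)) := by
  refine (Nat.RecursiveIn.comp hf hg).of_eq fun n => ?_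
  simp

theorem nrec_pair {O : Set (ℕ →. ℕ)} {f g : ℕ → ℕ}
    (hf : Nat.RecursiveIn O (fun n => Part.some (f n)))
    (hg : Nat.RecursiveIn O (fun n => Part.some (g n))) :
    Nat.RecursiveIn O (fun n => Part.some (Nat.pair (f n) (g n))) := by
  refine (Nat.RecursiveIn.pair hf hg).of_eq fun n => ?_
  simp [Seq.seq]

/-- coding of initial segments is computable in the oracle -/
theorem seg_rec (X : ℕ → ℕ) :
    Nat.RecursiveIn {fun n => Part.some (X n)} (fun n => Part.some (encode (seg X n))) := by
  set O : Set (ℕ →. ℕ) := {fun n => Part.some (X n)} with hO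
  have hX : Nat.RecursiveIn O (fun n => Part.some (X n)) := .oracle _ rfl
  let G : ℕ → ℕ := fun p =>
    encode (((decode (α := List ℕ) p.unpair.2.unpair.2).getD []) ++ [p.unpair.1])
  have hG : Primrec G := by
    refine Primrec.encode.comp (Primrec.list_append.comp ?_ ?_)
    · refine Primrec.option_getD.comp (Primrec.decode.comp ?_) (Primrec.const [])
      exact Primrec.snd.comp (Primrec.unpair.comp (Primrec.snd.comp Primrec.unpair))
    · exact Primrec.list_cons.comp (Primrec.fst.comp Primrec.unpair) (Primrec.const [])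
  let h : ℕ → ℕ := fun p => G (Nat.pair (X p.unpair.2.unpair.1) p.unpair.2)
  have hh : Nat.RecursiveIn O (fun p => Part.some (h p)) := by
    refine nrec_comp (g := fun p => Nat.pair (X p.unpair.2.unpair.1) p.unpair.2)
      (nrec_prim hG) (nrec_pair ?_ (nrec_prim (Primrec.snd.comp Primrec.unpair)))
    exact nrec_comp (g := fun p => p.unpair.2.unpair.1) hX
      (nrec_prim (Primrec.fst.comp (Primrec.unpair.comp (Primrec.snd.comp Primrec.unpair))))
  have hf : Nat.RecursiveIn O (fun _ => Part.some (encode ([] : List ℕ))) :=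
    nrec_prim (Primrec.const _)
  have hp := Nat.RecursiveIn.prec hf hh
  have hc := nrec_comp (g := fun n => Nat.pair 0 n) hp
    (nrec_prim (Primrec₂.natPair.comp (Primrec.const 0) Primrec.id))
  refine hc.of_eq fun n => ?_
  simp only [Nat.unpair_pair]
  induction n with
  | zero => simp [seg]
  | succ n ih =>
    simp only [ih]
    simp [h, G, seg_succ]

/-- search over initial segments -/
theorem search_rec {α σ : Type} [Primcodable α] [Primcodable σ] (X : ℕ → ℕ)
    {Θ : List ℕ → α → Option σ} (hΘ : Primrec₂ Θ) :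
    RecursiveIn {fun n => Part.some (X n)} (fun a => Nat.rfindOpt (fun t => Θ (seg X t) a)) := by
  set O : Set (ℕ →. ℕ) := {fun n => Part.some (X n)} with hO
  -- `W (pair (encode ρ) a)` is `0` or `encode + 1`
  let W : ℕ → Option σ := fun p =>
    (decode (α := α) p.unpair.2).bind fun a => Θ ((decode (α := List ℕ) p.unpair.1).getD []) a
  have hW : Primrec W := by
    refine Primrec.option_bind (Primrec.decode.comp (Primrec.snd.comp Primrec.unpair)) ?_
    refine hΘ.comp ?_ Primrec.snd
    exact Primrec.option_getD.comp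
      (Primrec.decode.comp (Primrec.fst.comp (Primrec.unpair.comp Primrec.fst)))
      (Primrec.const [])
  let T : ℕ → ℕ := fun p => bif (W p).isSome then 0 else 1
  have hT : Primrec T := Primrec.cond (Primrec.option_isSome.comp hW) (Primrec.const 0)
    (Primrec.const 1)
  let V : ℕ → ℕ := fun p => ((W p).map encode).getD 0
  have hV : Primrec V := Primrec.option_getD.comp
    (Primrec.option_map hW (Primrec.encode.comp Primrec.snd).to₂) (Primrec.const 0)
  have hs : Nat.RecursiveIn O (fun p => Part.some (Nat.pair (encode (seg X p.unpair.2)) p.unpair.1)) := by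
    refine nrec_pair ?_ (nrec_prim (Primrec.fst.comp Primrec.unpair))
    exact nrec_comp (g := fun p => p.unpair.2) (seg_rec X)
      (nrec_prim (Primrec.snd.comp Primrec.unpair))
  have h1 : Nat.RecursiveIn O
      (fun p => Part.some (T (Nat.pair (encode (seg X p.unpair.2)) p.unpair.1))) :=
    nrec_comp (f := fun n => Part.some (T n))
      (g := fun p => Nat.pair (encode (seg X p.unpair.2)) p.unpair.1) (nrec_prim hT) hs
  have h2 : Nat.RecursiveIn O
      (fun p => Part.some (V (Nat.pair (encode (seg X p.unpair.2)) p.unpair.1))) :=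
    nrec_comp (f := fun n => Part.some (V n))
      (g := fun p => Nat.pair (encode (seg X p.unpair.2)) p.unpair.1) (nrec_prim hV) hs
  have h3 := Nat.RecursiveIn.rfind h1
  have h4 : Nat.RecursiveIn O (fun n : ℕ => (Part.some n : Part ℕ)) := nrec_prim Primrec.id
  have h5 := Nat.RecursiveIn.comp h2 (Nat.RecursiveIn.pair h4 h3)
  have key : ∀ n : ℕ, ((Nat.pair <$> (Part.some n : Part ℕ) <*>
      Nat.rfind fun t => (fun m => decide (m = 0)) <$>
        (Part.some (T (Nat.pair (encode (seg X (Nat.pair n t).unpair.2)) (Nat.pair n t).unpair.1))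
          : Part ℕ)) >>=
      fun p => Part.some (V (Nat.pair (encode (seg X p.unpair.2)) p.unpair.1))) =
      ((decode (α := α) n : Part α).bind fun a =>
        (Nat.rfindOpt fun t => Θ (seg X t) a).map encode) := ?_
  · exact Nat.RecursiveIn.of_eq h5 key
  intro n
  apply Part.ext
  intro b
  simp only [Seq.seq, Part.map_eq_map, Part.bind_eq_bind, Part.mem_bind_iff, Part.mem_map_iff,
    Part.mem_some_iff, Nat.mem_rfind, Nat.unpair_pair]
  simp only [Part.mem_ofOption, Option.mem_def]
  have e1 : ∀ t, W (Nat.pair (encode (seg X t)) n) =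
      (decode (α := α) n).bind fun a => Θ (seg X t) a := by
    intro t; simp [W]
  have e2 : ∀ t, T (Nat.pair (encode (seg X t)) n) = 0 ↔
      ((decode (α := α) n).bind fun a => Θ (seg X t) a).isSome = true := by
    intro t
    simp only [T, e1]
    cases ((decode (α := α) n).bind fun a => Θ (seg X t) a).isSome <;> simp
  constructor
  · rintro ⟨x, ⟨_, ⟨n', hn', rfl⟩, t, ⟨⟨y, hy, hy'⟩, hm⟩, rfl⟩, hb⟩
    have hn'' := hn'.symm
    subst hn''
    subst hy
    simp only [Nat.unpair_pair] at hb
    have ht := (e2 t).1 (by simpa using hy')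
    cases hd : decode (α := α) n with
    | none => rw [hd] at ht; simp at ht
    | some a =>
      rw [hd] at ht
      simp only [Option.bind_some] at ht
      obtain ⟨z, hz⟩ := Option.isSome_iff_exists.1 ht
      refine ⟨a, rfl, z, ?_, ?_⟩
      · have hmin : ∀ m < t, Θ (seg X m) a = none := by
          intro m hmt
          obtain ⟨y, hy, hy'⟩ := hm hmt
          subst hy
          have := mt (e2 m).2 (by simpa using hy')
          rw [hd] at this
          simpa using this
        rw [Nat.rfindOpt]
        refine Part.mem_bind_iff.2 ⟨t, ?_, ?_⟩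
        · rw [Nat.mem_rfind]
          refine ⟨by simp [hz], fun {m} hmt => by simp [hmin m hmt]⟩
        · simp [hz]
      · rw [hb]
        simp [V, e1, hd, hz]
  · rintro ⟨a, hd, z, hz, rfl⟩
    rw [Nat.rfindOpt] at hz
    obtain ⟨t, ht, hz⟩ := Part.mem_bind_iff.1 hz
    rw [Nat.mem_rfind] at ht
    have hz' : Θ (seg X t) a = some z := by simpa using hz
    refine ⟨Nat.pair n t, ⟨_, ⟨n, rfl, rfl⟩, t, ⟨⟨_, rfl, ?_⟩, ?_⟩, rfl⟩, ?_⟩
    · simp only [decide_eq_true_eq]
      exact (e2 t).2 (by rw [hd]; simp [hz'])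
    · intro m hmt
      refine ⟨_, rfl, ?_⟩
      have h6 := ht.2 hmt
      simp only [Part.coe_some, Part.mem_some_iff] at h6
      simp only [decide_eq_false_iff_not]
      rw [e2 m, hd]
      simp only [Option.bind_some]
      intro h7
      rw [h7] at h6
      cases h6
    · simp [V, e1, hd, hz']

/-- membership in a search whose values are stable -/
theorem mem_rfindOpt {σ : Type} {f : ℕ → Option σ}
    (hf : ∀ s t v, s ≤ t → f s = some v → f t = some v) {v : σ} :
    v ∈ Nat.rfindOpt f ↔ ∃ t, f t = some v := by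
  constructor
  · intro h
    obtain ⟨t, ht⟩ := Nat.rfindOpt_spec h
    exact ⟨t, ht⟩
  · rintro ⟨t, ht⟩
    have hd : (Nat.rfindOpt f).Dom := by
      rw [Nat.rfindOpt_dom]
      exact ⟨t, v, ht⟩
    obtain ⟨w, hw⟩ := Part.dom_iff_mem.1 hd
    obtain ⟨s, hs⟩ := Nat.rfindOpt_spec hw
    have : v = w := by
      have h1 := hf t (max s t) v (le_max_right _ _) ht
      have h2 := hf s (max s t) w (le_max_left _ _) hs
      rw [h1] at h2
      exact Option.some.inj h2
    rw [this]; exact hw

/-- functions recursive in an oracle have codes evaluated on initial segments -/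
theorem oracle_code {α σ : Type} [Primcodable α] [Primcodable σ] (X : ℕ → ℕ) {D : α →. σ}
    (hD : RecursiveIn {fun n => Part.some (X n)} D) :
    ∃ c : Code, ∀ (p : α) (v : ℕ), (∃ z ∈ D p, encode z = v) ↔
      ∃ t, val c (seg X t) (encode p) = some v := by
  obtain ⟨F, hF, mF, eF⟩ := use_principle X _ hD
  obtain ⟨c, hc⟩ := exists_code_functional hF
  refine ⟨c, fun p v => ?_⟩
  have h0 : (∃ z ∈ D p, encode z = v) ↔ ∃ M, v ∈ F (seg X M) (encode p) := by
    rw [← eF]
    simp [Part.mem_map_iff]
  rw [h0]
  constructor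
  · rintro ⟨M, hM⟩
    exact val_complete mF hc hM
  · rintro ⟨t, ht⟩
    obtain ⟨a, ha⟩ := valt_sound ht
    rw [hc] at ha
    have h1 : (seg X t).take a <+: seg X t := List.take_prefix _ _
    exact ⟨t, mF _ _ _ _ h1 ha⟩

end Pool.Agent.Lib.MP_f7c71a_lc
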