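import Pool.Agent.Lib.MP_f7c71a_lc.Proc

set_option autoImplicit false

/-!
The potential argument bounding the number of charged pairs of every level.
-/

namespace Pool.Agent.Lib.MP_f7c71a_lc

open Finset

theorem any_eq_iff (H : Cert) (q : Str × ℕ) :
    H.any (fun q' => decide (q' = q)) = true ↔ q ∈ H := by
  simp

theorem cw_nil (N : ℕ) (q : Str × ℕ) : cw N [] q = 0 := rfl

theorem cw_cons (N : ℕ) (H : Cert) (h : List Cert) (q : Str × ℕ) :
    cw N (H :: h) q = cw N h q + (if q ∈ H then 2 ^ (N + q.2 - mmax H) else 0) := by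
  unfold cw
  rw [List.foldr_cons]
  congr 1
  by_cases hq : q ∈ H
  · rw [if_pos hq, (any_eq_iff H q).2 hq]; rfl
  · rw [if_neg hq]
    have : H.any (fun q' => decide (q' = q)) = false := by
      rw [Bool.eq_false_iff]; exact fun h' => hq ((any_eq_iff H q).1 h')
    rw [this]; rfl

theorem le_mmax {H : Cert} {q : Str × ℕ} (hq : q ∈ H) : q.2 ≤ mmax H := by
  induction H with
  | nil => cases hq
  | cons a H ih =>
    have h : mmax (a :: H) = max a.2 (mmax H) := rfl
    rw [h]
    rcases List.mem_cons.1 hq with rfl | hq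
    · exact le_max_left _ _
    · exact le_trans (ih hq) (le_max_right _ _)

theorem mmax_le {H : Cert} {N : ℕ} (h : ∀ q ∈ H, q.2 ≤ N) : mmax H ≤ N := by
  induction H with
  | nil => exact Nat.zero_le _
  | cons a H ih =>
    have h' : mmax (a :: H) = max a.2 (mmax H) := rfl
    rw [h']
    exact max_le (h a List.mem_cons_self) (ih fun q hq => h q (List.mem_cons_of_mem _ hq))

/-- valid histories -/
def VH (N K : ℕ) (E : ℕ → Finset Str) : List Cert → Prop
  | [] => True
  | H :: h => (H.length ≤ K ∧ (∀ q ∈ H, q.2 ≤ N ∧ cw N h q < 2 ^ N) ∧ ∃ q ∈ H, q.1 ∈ E q.2) ∧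
      VH N K E h

/-- total weight -/
def W (N : ℕ) (h : List Cert) : ℕ := (h.map (fun H => 2 ^ (N - mmax H))).sum

theorem W_cons (N : ℕ) (H : Cert) (h : List Cert) :
    W N (H :: h) = W N h + 2 ^ (N - mmax H) := by
  simp [W, add_comm]

theorem length_le_W (N : ℕ) (h : List Cert) : h.length ≤ W N h := by
  induction h with
  | nil => simp
  | cons H h ih =>
    rw [W_cons, List.length_cons]
    have : 1 ≤ 2 ^ (N - mmax H) := Nat.one_le_two_pow
    omega

variable {N K : ℕ} {E : ℕ → Finset Str}

theorem cw_lt {h : List Cert} (hv : VH N K E h) (q : Str × ℕ) : cw N h q < 2 ^ (N + 1) := by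
  induction h with
  | nil => rw [cw_nil]; positivity
  | cons H h ih =>
    rw [cw_cons]
    split_ifs with hq
    · have h1 := (hv.1.2.1 q hq).2
      have h2 : 2 ^ (N + q.2 - mmax H) ≤ 2 ^ N :=
        Nat.pow_le_pow_right (by norm_num) (by have := le_mmax hq; omega)
      rw [pow_succ]
      omega
    · have := ih hv.2
      omega

theorem pot_lower {h : List Cert} (hv : VH N K E h) :
    2 ^ N * W N h ≤ ∑ m ∈ range (N + 1), ∑ z ∈ E m, 2 ^ (N - m) * cw N h (z, m) := by
  induction h with
  | nil => simp [W]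
  | cons H h ih =>
    have h1 := ih hv.2
    obtain ⟨⟨z, m⟩, hq, hz⟩ := hv.1.2.2
    have hmN := (hv.1.2.1 _ hq).1
    have hMN : mmax H ≤ N := mmax_le fun q hq => (hv.1.2.1 q hq).1
    simp only at hz hmN
    have h2 : 2 ^ N * 2 ^ (N - mmax H) ≤ ∑ m ∈ range (N + 1), ∑ z ∈ E m,
        2 ^ (N - m) * (if (z, m) ∈ H then 2 ^ (N + m - mmax H) else 0) := by
      calc 2 ^ N * 2 ^ (N - mmax H)
          = 2 ^ (N - m) * (if (z, m) ∈ H then 2 ^ (N + m - mmax H) else 0) := by
            rw [if_pos hq, ← pow_add, ← pow_add]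
            congr 1
            omega
        _ ≤ ∑ z ∈ E m, 2 ^ (N - m) * (if (z, m) ∈ H then 2 ^ (N + m - mmax H) else 0) :=
            Finset.single_le_sum (f := fun z => 2 ^ (N - m) *
              (if (z, m) ∈ H then 2 ^ (N + m - mmax H) else 0)) (fun _ _ => Nat.zero_le _) hz
        _ ≤ _ := Finset.single_le_sum (f := fun m => ∑ z ∈ E m, 2 ^ (N - m) *
              (if (z, m) ∈ H then 2 ^ (N + m - mmax H) else 0)) (fun _ _ => Nat.zero_le _)
              (Finset.mem_range.2 (by omega))
    rw [W_cons, mul_add]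
    refine le_trans (Nat.add_le_add h1 h2) (le_of_eq ?_)
    rw [← Finset.sum_add_distrib]
    refine Finset.sum_congr rfl fun m _ => ?_
    rw [← Finset.sum_add_distrib]
    refine Finset.sum_congr rfl fun z _ => ?_
    rw [cw_cons, mul_add]

theorem W_le (hE : ∀ m, (E m).card ≤ 2 ^ m) {h : List Cert} (hv : VH N K E h) :
    W N h ≤ (N + 1) * 2 ^ (N + 1) := by
  have h1 := pot_lower hv
  have h2 : ∑ m ∈ range (N + 1), ∑ z ∈ E m, 2 ^ (N - m) * cw N h (z, m) ≤
      ∑ m ∈ range (N + 1), 2 ^ N * 2 ^ (N + 1) := by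
    refine Finset.sum_le_sum fun m hm => ?_
    have hm' : m ≤ N := by have := Finset.mem_range.1 hm; omega
    calc ∑ z ∈ E m, 2 ^ (N - m) * cw N h (z, m)
        ≤ ∑ z ∈ E m, 2 ^ (N - m) * 2 ^ (N + 1) :=
          Finset.sum_le_sum fun z _ => Nat.mul_le_mul_left _ (cw_lt hv _).le
      _ = (E m).card * (2 ^ (N - m) * 2 ^ (N + 1)) := by rw [Finset.sum_const, smul_eq_mul]
      _ ≤ 2 ^ m * (2 ^ (N - m) * 2 ^ (N + 1)) := Nat.mul_le_mul_right _ (hE m)
      _ = 2 ^ N * 2 ^ (N + 1) := by
          rw [← mul_assoc, ← pow_add]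
          congr 2
          omega
  rw [Finset.sum_const, Finset.card_range, smul_eq_mul] at h2
  have h3 : 2 ^ N * W N h ≤ 2 ^ N * ((N + 1) * 2 ^ (N + 1)) := by
    refine le_trans (le_trans h1 h2) (le_of_eq (by ring))
  exact Nat.le_of_mul_le_mul_left h3 (by positivity)

theorem sum_cw_le {m : ℕ} {F : Finset (Str × ℕ)} (hF : ∀ q ∈ F, q.2 = m)
    {h : List Cert} (hv : VH N K E h) :
    ∑ q ∈ F, cw N h q ≤ K * 2 ^ m * W N h := by
  induction h with
  | nil => simp [cw_nil]
  | cons H h ih =>
    have h1 := ih hv.2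
    have hMN : mmax H ≤ N := mmax_le fun q hq => (hv.1.2.1 q hq).1
    have h2 : ∑ q ∈ F, (if q ∈ H then 2 ^ (N + q.2 - mmax H) else 0) ≤
        K * 2 ^ m * 2 ^ (N - mmax H) := by
      calc ∑ q ∈ F, (if q ∈ H then 2 ^ (N + q.2 - mmax H) else 0)
          = ∑ q ∈ F.filter (fun q => q ∈ H), 2 ^ (N + q.2 - mmax H) := by
            rw [Finset.sum_filter]
        _ = ∑ q ∈ F.filter (fun q => q ∈ H), 2 ^ m * 2 ^ (N - mmax H) := by
            refine Finset.sum_congr rfl fun q hq => ?_
            rw [hF q (Finset.mem_filter.1 hq).1, ← pow_add]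
            congr 1
            omega
        _ = (F.filter (fun q => q ∈ H)).card * (2 ^ m * 2 ^ (N - mmax H)) := by
            rw [Finset.sum_const, smul_eq_mul]
        _ ≤ K * (2 ^ m * 2 ^ (N - mmax H)) := by
            refine Nat.mul_le_mul_right _ (le_trans ?_ hv.1.1)
            refine le_trans (Finset.card_le_card (t := H.toFinset) ?_) (List.toFinset_card_le H)
            intro q hq
            exact List.mem_toFinset.2 (Finset.mem_filter.1 hq).2
        _ = K * 2 ^ m * 2 ^ (N - mmax H) := by ring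
    rw [W_cons, mul_add]
    refine le_trans (le_of_eq ?_) (Nat.add_le_add h1 h2)
    rw [← Finset.sum_add_distrib]
    refine Finset.sum_congr rfl fun q _ => ?_
    rw [cw_cons]

theorem insN_eq (L : Cert) (q : Str × ℕ) : insN L q = if q ∈ L then L else L ++ [q] := by
  unfold insN
  by_cases hq : q ∈ L
  · rw [if_pos hq, (any_eq_iff L q).2 hq]; rfl
  · rw [if_neg hq]
    have : L.any (fun q' => decide (q' = q)) = false := by
      rw [Bool.eq_false_iff]; exact fun h' => hq ((any_eq_iff L q).1 h')
    rw [this]; rfl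

theorem foldl_insN_prefix (l : Cert) (L : Cert) : L <+: l.foldl insN L := by
  induction l generalizing L with
  | nil => exact List.prefix_rfl
  | cons q l ih =>
    rw [List.foldl_cons]
    refine List.IsPrefix.trans ?_ (ih _)
    rw [insN_eq]
    split_ifs
    · exact List.prefix_rfl
    · exact List.prefix_append _ _

theorem mem_foldl_insN (l : Cert) (L : Cert) (q : Str × ℕ) :
    q ∈ l.foldl insN L ↔ q ∈ L ∨ q ∈ l := by
  induction l generalizing L with
  | nil => simp
  | cons a l ih =>
    rw [List.foldl_cons, ih, insN_eq]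
    split_ifs with h
    · simp only [List.mem_cons]
      constructor
      · rintro (h1 | h1) <;> tauto
      · rintro (h1 | h1 | h1)
        · tauto
        · subst h1; tauto
        · tauto
    · simp only [List.mem_cons, List.mem_append, List.not_mem_nil, or_false]
      tauto

theorem nodup_foldl_insN (l : Cert) (L : Cert) (h : L.Nodup) : (l.foldl insN L).Nodup := by
  induction l generalizing L with
  | nil => exact h
  | cons a l ih =>
    rw [List.foldl_cons]
    refine ih _ ?_
    rw [insN_eq]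
    split_ifs with h'
    · exact h
    · rw [List.nodup_append]
      refine ⟨h, by simp, ?_⟩
      intro x hx y hy hxy
      simp only [List.mem_singleton] at hy
      subst hy; subst hxy
      exact h' hx

theorem CL_nodup (N : ℕ) (h : List Cert) : (CL N h).Nodup := by
  induction h with
  | nil => simp [CL]
  | cons H h ih => exact nodup_foldl_insN _ _ ih

theorem CL_prefix (N : ℕ) (H : Cert) (h : List Cert) : CL N h <+: CL N (H :: h) :=
  foldl_insN_prefix _ _

theorem mem_CL (N : ℕ) (h : List Cert) (q : Str × ℕ) : q ∈ CL N h ↔ 2 ^ N ≤ cw N h q := by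
  induction h with
  | nil =>
    simp only [CL, List.not_mem_nil, cw_nil, false_iff, not_le]
    positivity
  | cons H h ih =>
    rw [CL, mem_foldl_insN, List.mem_filter, ih, decide_eq_true_iff]
    have hmono : cw N h q ≤ cw N (H :: h) q := by rw [cw_cons]; exact Nat.le_add_right _ _
    constructor
    · rintro (h1 | h1)
      · exact le_trans h1 hmono
      · exact h1.2
    · intro h1
      by_cases hq : q ∈ H
      · exact Or.inr ⟨hq, h1⟩
      · left
        rw [cw_cons, if_neg hq] at h1
        simpa using h1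

theorem CL_level_length (hE : ∀ m, (E m).card ≤ 2 ^ m) {h : List Cert} (hv : VH N K E h) (m : ℕ) :
    ((CL N h).filter (fun q => decide (q.2 = m))).length ≤ K * 2 ^ (m + 1) * (N + 1) := by
  set L := (CL N h).filter (fun q => decide (q.2 = m)) with hL
  have hnd : L.Nodup := (CL_nodup N h).filter _
  have h1 : L.toFinset.card = L.length := List.toFinset_card_of_nodup hnd
  have hF : ∀ q ∈ L.toFinset, q.2 = m := by
    intro q hq
    have := List.mem_toFinset.1 hq
    rw [hL, List.mem_filter] at this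
    simpa using this.2
  have h2 := sum_cw_le hF hv
  have h3 : L.length * 2 ^ N ≤ ∑ q ∈ L.toFinset, cw N h q := by
    rw [← h1, ← smul_eq_mul, ← Finset.sum_const]
    refine Finset.sum_le_sum fun q hq => ?_
    have := List.mem_toFinset.1 hq
    rw [hL, List.mem_filter] at this
    exact (mem_CL N h q).1 this.1
  have h4 := W_le hE hv
  have h5 : L.length * 2 ^ N ≤ (K * 2 ^ (m + 1) * (N + 1)) * 2 ^ N := by
    calc L.length * 2 ^ N ≤ K * 2 ^ m * W N h := le_trans h3 h2
      _ ≤ K * 2 ^ m * ((N + 1) * 2 ^ (N + 1)) := Nat.mul_le_mul_left _ h4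
      _ = (K * 2 ^ (m + 1) * (N + 1)) * 2 ^ N := by rw [pow_succ, pow_succ]; ring
  exact Nat.le_of_mul_le_mul_right h5 (by positivity)

theorem length_le (hE : ∀ m, (E m).card ≤ 2 ^ m) {h : List Cert} (hv : VH N K E h) :
    h.length ≤ (N + 1) * 2 ^ (N + 1) := le_trans (length_le_W N h) (W_le hE hv)

end Pool.Agent.Lib.MP_f7c71a_lc
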