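import Mathlib

set_option autoImplicit false

/-!
Plain Kolmogorov complexity with respect to an arbitrary optimal decompressor, with and without
an oracle.
-/

namespace Pool.Agent.Lib.MP_f7c71a_lc

/-- finite binary strings -/
abbrev Str := List Bool

/-- The oracle `X` (an infinite binary sequence) as a one-element set of functions, in the form
Mathlib's `RecursiveIn` takes. -/
def orc (X : ℕ → Bool) : Set (ℕ →. ℕ) := {fun n => Part.some (X n).toNat}

/-- `KC D x y` is the length of a shortest program `p` with `D p y = x`. -/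
noncomputable def KC (D : Str → Str →. Str) (x y : Str) : ℕ :=
  sInf {l : ℕ | ∃ p : Str, x ∈ D p y ∧ p.length = l}

/-- `D` is an optimal (conditional) decompressor: it is partial computable, and every partial
computable `D'` satisfies `K_D ≤ K_D' + O(1)`. -/
def IsOptimal (D : Str → Str →. Str) : Prop :=
  Partrec₂ D ∧ ∀ D' : Str → Str →. Str, Partrec₂ D' →
    ∃ c : ℕ, ∀ p y x : Str, x ∈ D' p y → ∃ q : Str, x ∈ D q y ∧ q.length ≤ p.length + c

/-- `D` is an optimal (conditional) `X`-decompressor: the same with decompressors that are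
recursive in the oracle `X`. -/
def IsOptimalIn (X : ℕ → Bool) (D : Str → Str →. Str) : Prop :=
  RecursiveIn₂ (orc X) D ∧ ∀ D' : Str → Str →. Str, RecursiveIn₂ (orc X) D' →
    ∃ c : ℕ, ∀ p y x : Str, x ∈ D' p y → ∃ q : Str, x ∈ D q y ∧ q.length ≤ p.length + c

end Pool.Agent.Lib.MP_f7c71a_lc
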