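import Pool.Agent.Lib.MP_f7c71a_lc.Defs
import Pool.Agent.Lib.MP_f7c71a_lc.Oracle

set_option autoImplicit false

/-!
Existence of optimal decompressors, and the self-delimiting coding of strings.
-/

namespace Pool.Agent.Lib.MP_f7c71a_lc

open Nat.Partrec (Code)
open Nat.Partrec.Code Encodable
open Pool.Agent.Lib.MP_f26228_lc (seg seg_length seg_getElem? seg_prefix seg_take use_principle
  val val_primrec val_mono valt_sound val_complete exists_code_functional Mono)

/-- number of leading ones -/
def ones (w : Str) : ℕ := (w.takeWhile id).length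

/-- what follows the first zero -/
def rest (w : Str) : Str := w.drop (ones w + 1)

theorem ones_mk (c : ℕ) (p : Str) : ones (List.replicate c true ++ false :: p) = c := by
  unfold ones
  induction c with
  | zero => simp
  | succ c ih => rw [List.replicate_succ, List.cons_append, List.takeWhile_cons]; simpa using ih

theorem rest_mk (c : ℕ) (p : Str) : rest (List.replicate c true ++ false :: p) = p := by
  unfold rest
  rw [ones_mk]
  rw [List.drop_append]
  simp

theorem ones_primrec : Primrec ones :=
  Primrec.list_length.comp (Primrec.list_takeWhile Primrec.id)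

theorem rest_primrec : Primrec rest :=
  Primrec.list_drop.comp (Primrec.succ.comp ones_primrec) Primrec.id

theorem exists_optimalIn (X : ℕ → Bool) : ∃ D : Str → Str →. Str, IsOptimalIn X D := by
  let X' : ℕ → ℕ := fun n => (X n).toNat
  let Θ : List ℕ → Str × Str → Option Str := fun ρ z =>
    (val (Denumerable.ofNat Code (ones z.1)) ρ (encode (rest z.1, z.2))).bind
      (fun v => (decode v : Option Str))
  have hΘ : Primrec₂ Θ := by
    refine Primrec.option_bind (f := fun x : List ℕ × (Str × Str) =>
        val (Denumerable.ofNat Code (ones x.2.1)) x.1 (encode (rest x.2.1, x.2.2)))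
      (g := fun _ v => (decode v : Option Str)) ?_ (Primrec.decode.comp Primrec.snd)
    refine val_primrec.comp
      (g := fun x : List ℕ × (Str × Str) => ((Denumerable.ofNat Code (ones x.2.1), x.1),
        encode (rest x.2.1, x.2.2))) ?_
    refine Primrec.pair (Primrec.pair ?_ Primrec.fst) ?_
    · exact (Primrec.ofNat Code).comp
        (ones_primrec.comp (Primrec.fst.comp Primrec.snd))
    · exact Primrec.encode.comp (Primrec.pair
        (rest_primrec.comp (Primrec.fst.comp Primrec.snd)) (Primrec.snd.comp Primrec.snd))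
  refine ⟨fun w y => Nat.rfindOpt (fun t => Θ (seg X' t) (w, y)), search_rec X' hΘ, ?_⟩
  intro D' hD'
  obtain ⟨c, hc⟩ := oracle_code X' (D := fun z : Str × Str => D' z.1 z.2) hD'
  refine ⟨encode c + 1, fun p y x hx => ?_⟩
  obtain ⟨t, ht⟩ := (hc (p, y) (encode x)).1 ⟨x, hx, rfl⟩
  refine ⟨List.replicate (encode c) true ++ false :: p, ?_, by simp; omega⟩
  rw [mem_rfindOpt]
  · refine ⟨t, ?_⟩
    simp only [Θ, ones_mk, rest_mk, Denumerable.ofNat_encode, ht, Option.bind_some, encodek]
  · intro s t v hst h
    simp only [Θ, Option.bind_eq_some_iff] at h ⊢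
    obtain ⟨a, ha, hv⟩ := h
    exact ⟨a, val_mono (seg_prefix _ hst) ha, hv⟩

theorem orc_false : orc (fun _ => false) = {fun _ => Part.some 0} := rfl

theorem exists_optimal : ∃ D : Str → Str →. Str, IsOptimal D := by
  obtain ⟨D, hD, hopt⟩ := exists_optimalIn (fun _ => false)
  have h : ∀ E : Str → Str →. Str, RecursiveIn₂ (orc fun _ => false) E ↔ Partrec₂ E := by
    intro E
    constructor
    · intro hE
      rw [orc_false] at hE
      exact RecursiveIn.partrec_of_const hE
    · intro hE
      exact Partrec.recursiveIn hE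
  exact ⟨D, (h D).1 hD, fun D' hD' => hopt D' ((h D').2 hD')⟩

/-- binary decoding, least significant bit first -/
def dec : Str → ℕ
  | [] => 0
  | b :: l => 2 * dec l + b.toNat

theorem dec_surj (L : ℕ) : ∀ j < 2 ^ L, ∃ w : Str, w.length = L ∧ dec w = j := by
  induction L with
  | zero => intro j hj; exact ⟨[], rfl, by simp at hj; simp [dec, hj]⟩
  | succ L ih =>
    intro j hj
    obtain ⟨w, hw, hd⟩ := ih (j / 2) (by rw [pow_succ] at hj; omega)
    refine ⟨decide (j % 2 = 1) :: w, by simp [hw], ?_⟩
    rw [dec, hd]
    rcases Nat.mod_two_eq_zero_or_one j with h | h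
    · simp [h]; omega
    · simp [h]; omega

theorem dec_primrec : Primrec dec := by
  have h : Primrec (fun w : Str => w.foldr (fun b acc => 2 * acc + b.toNat) 0) := by
    refine Primrec.list_foldr (h := fun (_ : Str) (y : Bool × ℕ) => 2 * y.2 + y.1.toNat)
      Primrec.id (Primrec.const 0) ?_
    refine Primrec.nat_add.comp (Primrec.nat_mul.comp (Primrec.const 2)
      (Primrec.snd.comp Primrec.snd)) ?_
    exact (Primrec.dom_bool _).comp (Primrec.fst.comp Primrec.snd)
  refine h.of_eq fun w => ?_
  induction w with
  | nil => rfl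
  | cons b w ih => rw [List.foldr_cons, ih]; rfl

/-- first component of a parsed pair -/
def parse1 (w : Str) : ℕ := dec ((rest w).take (ones w))

/-- second component of a parsed pair -/
def parse2 (w : Str) : ℕ := dec ((rest w).drop (ones w))

theorem parse1_primrec : Primrec parse1 :=
  dec_primrec.comp (Primrec.list_take.comp ones_primrec rest_primrec)

theorem parse2_primrec : Primrec parse2 :=
  dec_primrec.comp (Primrec.list_drop.comp ones_primrec rest_primrec)

theorem exists_parse {l L a j : ℕ} (ha : a < 2 ^ l) (hj : j < 2 ^ L) :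
    ∃ w : Str, w.length = 2 * l + 1 + L ∧ parse1 w = a ∧ parse2 w = j := by
  obtain ⟨u, hu, hua⟩ := dec_surj l a ha
  obtain ⟨v, hv, hvj⟩ := dec_surj L j hj
  refine ⟨List.replicate l true ++ false :: (u ++ v), ?_, ?_, ?_⟩
  · simp [hu, hv]; omega
  · rw [parse1, ones_mk, rest_mk, ← hu, List.take_left, hua]
  · rw [parse2, ones_mk, rest_mk, ← hu, List.drop_left, hvj]

end Pool.Agent.Lib.MP_f7c71a_lc
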