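import Pool.Agent.Lib.MP_f7c71a_lc.Comb

set_option autoImplicit false

/-!
Analysis of the oracle process and the main theorem.
-/

namespace Pool.Agent.Lib.MP_f7c71a_lc

open Nat.Partrec (Code)
open Nat.Partrec.Code Encodable
open Pool.Agent.Lib.MP_f26228_lc (seg seg_length seg_getElem? seg_prefix seg_take use_principle
  val val_primrec val_mono valt_sound val_complete exists_code_functional Mono)

theorem KC_le {D : Str → Str →. Str} {x y p : Str} (h : x ∈ D p y) : KC D x y ≤ p.length :=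
  Nat.sInf_le ⟨p, h, rfl⟩

theorem KC_spec {D : Str → Str →. Str} {x y p : Str} (h : x ∈ D p y) :
    ∃ q : Str, x ∈ D q y ∧ q.length = KC D x y :=
  Nat.sInf_mem (s := {l : ℕ | ∃ p : Str, x ∈ D p y ∧ p.length = l}) ⟨_, p, h, rfl⟩

/-- codes for partial recursive binary string functions -/
theorem code_of_partrec {D : Str → Str →. Str} (hD : Partrec₂ D) :
    ∃ c : Code, ∀ (p y : Str) (v : ℕ),
      v ∈ eval c (encode (p, y)) ↔ ∃ z ∈ D p y, encode z = v := by
  obtain ⟨c, hc⟩ := Code.exists_code.1 hD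
  refine ⟨c, fun p y v => ?_⟩
  rw [hc]
  simp [Part.mem_map_iff]

section process

variable {X' : ℕ → ℕ} {cD cX : Code} {k c0 : ℕ} {D D' : Str → Str →. Str}

/-- `cX` is a code for `D'` on the oracle -/
def CodeX (X' : ℕ → ℕ) (cX : Code) (D' : Str → Str →. Str) : Prop :=
  ∀ (p : Str × Str) (v : ℕ), (∃ z ∈ D' p.1 p.2, encode z = v) ↔
      ∃ t, val cX (seg X' t) (encode p) = some v

/-- `cD` is a code for `D` -/
def CodeD (cD : Code) (D : Str → Str →. Str) : Prop :=
  ∀ (p y : Str) (v : ℕ), v ∈ eval cD (encode (p, y)) ↔ ∃ z ∈ D p y, encode z = v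

theorem valS_sound (hX : CodeX X' cX D') {t : ℕ} {p v : Str}
    (h : valS cX (seg X' t) p = some v) : v ∈ D' p [] := by
  unfold valS at h
  obtain ⟨a, ha, hv⟩ := Option.bind_eq_some_iff.1 h
  obtain ⟨z, hz, hza⟩ := (hX (p, []) a).2 ⟨t, ha⟩
  rw [← hza, encodek] at hv
  cases hv
  exact hz

theorem valS_mono {s t : ℕ} (hst : s ≤ t) {p v : Str}
    (h : valS cX (seg X' s) p = some v) : valS cX (seg X' t) p = some v := by
  unfold valS at h ⊢
  obtain ⟨a, ha, hv⟩ := Option.bind_eq_some_iff.1 h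
  exact Option.bind_eq_some_iff.2 ⟨a, val_mono (seg_prefix _ hst) ha, hv⟩

theorem valS_complete (hX : CodeX X' cX D') {p v : Str}
    (h : v ∈ D' p []) : ∃ t, valS cX (seg X' t) p = some v := by
  obtain ⟨t, ht⟩ := (hX (p, []) (encode v)).1 ⟨v, h, rfl⟩
  exact ⟨t, by unfold valS; rw [ht]; simp⟩

theorem consB_iff {n : ℕ} {ρ : List ℕ} {R : Tab} : consB cX c0 n ρ R = true ↔
    ∀ p : Str, p.length ≤ n + c0 → ∀ v, valS cX ρ p = some v → n < v.length ∨ lk R p = some v := by
  unfold consB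
  rw [List.all_eq_true]
  simp only [mem_strs]
  constructor
  · intro h p hp v hv
    have := h p (by omega)
    rw [hv] at this
    simpa using this
  · intro h p hp
    cases hv : valS cX ρ p with
    | none => simp
    | some v =>
      have := h p (by omega) v hv
      simpa using this

theorem consB_anti {n s t : ℕ} (hst : s ≤ t) {R : Tab}
    (h : consB cX c0 n (seg X' t) R = true) : consB cX c0 n (seg X' s) R = true := by
  rw [consB_iff] at h ⊢
  exact fun p hp v hv => h p hp v (valS_mono hst hv)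

theorem hitB_iff {ρ : List ℕ} {R : Tab} {q : Str × ℕ} : hitB cD ρ R q = true ↔
    ∃ r : Str, r.length < q.2 ∧ evaln ρ.length cD (encode (r, yR R)) = some (encode q.1) := by
  unfold hitB
  rw [List.any_eq_true]
  simp only [mem_strs, decide_eq_true_eq]

theorem hitB_sound (hD : CodeD cD D) {ρ : List ℕ} {R : Tab} {q : Str × ℕ}
    (h : hitB cD ρ R q = true) : ∃ r : Str, r.length < q.2 ∧ q.1 ∈ D r (yR R) := by
  obtain ⟨r, hr, h1⟩ := hitB_iff.1 h
  obtain ⟨z, hz, hzq⟩ := (hD r (yR R) _).1 (evaln_sound h1)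
  exact ⟨r, hr, encode_injective hzq ▸ hz⟩

theorem hitB_complete (hD : CodeD cD D) {R : Tab} {q : Str × ℕ} {r : Str} (hr : r.length < q.2)
    (hq : q.1 ∈ D r (yR R)) : ∃ t0, ∀ t ≥ t0, hitB cD (seg X' t) R q = true := by
  obtain ⟨t0, h0⟩ := evaln_complete.1 ((hD r (yR R) _).2 ⟨q.1, hq, rfl⟩)
  refine ⟨t0, fun t ht => hitB_iff.2 ⟨r, hr, ?_⟩⟩
  rw [seg_length]
  exact evaln_mono ht h0

theorem certB_iff {n : ℕ} {h : List Cert} {ρ : List ℕ} {H : Cert} :
    certB cD cX k c0 n h ρ H = true ↔ H.length ≤ n ^ k ∧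
      (∀ q ∈ H, q.2 ≤ n + c0 ∧ cw (n + c0) h q < 2 ^ (n + c0)) ∧
      ∀ R ∈ tabs (strs (n + 1)) (strs (n + c0 + 1)), consB cX c0 n ρ R = true →
        ∃ q ∈ H, hitB cD ρ R q = true := by
  unfold certB
  simp only [Bool.and_eq_true, decide_eq_true_eq, List.all_eq_true, Bool.or_eq_true,
    Bool.not_eq_true', List.any_eq_true]
  constructor
  · rintro ⟨h1, h2, h3⟩
    refine ⟨h1, h2, fun R hR hc => ?_⟩
    rcases h3 R hR with h | h
    · rw [hc] at h; cases h
    · exact h
  · rintro ⟨h1, h2, h3⟩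
    refine ⟨h1, h2, fun R hR => ?_⟩
    cases hc : consB cX c0 n ρ R with
    | false => exact Or.inl rfl
    | true => exact Or.inr (h3 R hR hc)

theorem pick_some {n : ℕ} {h : List Cert} {ρ : List ℕ} {t : ℕ} {H : Cert}
    (hp : pick cD cX k c0 n h ρ t = some H) : certB cD cX k c0 n h ρ H = true := by
  unfold pick at hp
  have h1 : H ∈ ((List.range t).filterMap (fun i => (decode (α := Cert) i).bind (fun H =>
    bif certB cD cX k c0 n h ρ H then some H else none))) := List.mem_of_mem_head? hp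
  obtain ⟨i, -, hi⟩ := List.mem_filterMap.1 h1
  obtain ⟨H', -, hH'⟩ := Option.bind_eq_some_iff.1 hi
  cases hc : certB cD cX k c0 n h ρ H' with
  | false => rw [hc] at hH'; cases hH'
  | true =>
    rw [hc] at hH'
    have : H' = H := by simpa using hH'
    rw [← this]; exact hc

theorem pick_ne_none {n : ℕ} {h : List Cert} {ρ : List ℕ} {t : ℕ} {H : Cert}
    (hc : certB cD cX k c0 n h ρ H = true) (ht : encode H < t) :
    ∃ H', pick cD cX k c0 n h ρ t = some H' := by
  unfold pick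
  have h1 : H ∈ ((List.range t).filterMap (fun i => (decode (α := Cert) i).bind (fun H =>
    bif certB cD cX k c0 n h ρ H then some H else none))) := by
    rw [List.mem_filterMap]
    exact ⟨encode H, List.mem_range.2 ht, by simp [hc]⟩
  rw [← Option.isSome_iff_exists, List.isSome_head?]
  have := List.ne_nil_of_mem h1
  cases hl : ((List.range t).filterMap (fun i => (decode (α := Cert) i).bind (fun H =>
    bif certB cD cX k c0 n h ρ H then some H else none))) with
  | nil => exact absurd hl this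
  | cons a l => simp

/-- history along the oracle -/
def HX (X' : ℕ → ℕ) (cD cX : Code) (k c0 n t : ℕ) : List Cert :=
  t.rec [] (fun s ih => step cD cX k c0 n ih (seg X' s) s)

theorem HX_succ (n t : ℕ) : HX X' cD cX k c0 n (t + 1) =
    step cD cX k c0 n (HX X' cD cX k c0 n t) (seg X' t) t := rfl

theorem hist_seg (n : ℕ) {t T : ℕ} (h : t ≤ T) :
    hist cD cX k c0 n (seg X' T) t = HX X' cD cX k c0 n t := by
  induction t with
  | zero => rfl
  | succ t ih =>
    rw [HX_succ, ← ih (by omega)]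
    show step cD cX k c0 n (hist cD cX k c0 n (seg X' T) t) ((seg X' T).take t) t = _
    rw [seg_take X' (by omega)]

theorem HX_cases (n t : ℕ) :
    HX X' cD cX k c0 n (t + 1) = HX X' cD cX k c0 n t ∨
    ∃ H, certB cD cX k c0 n (HX X' cD cX k c0 n t) (seg X' t) H = true ∧
      HX X' cD cX k c0 n (t + 1) = H :: HX X' cD cX k c0 n t := by
  rw [HX_succ, step]
  cases hp : pick cD cX k c0 n (HX X' cD cX k c0 n t) (seg X' t) t with
  | none => left; rfl
  | some H => right; exact ⟨H, pick_some hp, rfl⟩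

theorem HX_change (n t : ℕ) {H : Cert} (ht : encode H < t)
    (hc : certB cD cX k c0 n (HX X' cD cX k c0 n t) (seg X' t) H = true) :
    HX X' cD cX k c0 n (t + 1) ≠ HX X' cD cX k c0 n t := by
  obtain ⟨H', hH'⟩ := pick_ne_none hc ht
  rw [HX_succ, step, hH']
  intro h
  have := congrArg List.length h
  simp at this

theorem CL_mono_t (N n : ℕ) {s t : ℕ} (h : s ≤ t) :
    CL N (HX X' cD cX k c0 n s) <+: CL N (HX X' cD cX k c0 n t) := by
  induction t, h using Nat.le_induction with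
  | base => exact List.prefix_rfl
  | succ t _ ih =>
    rcases HX_cases (X' := X') (cD := cD) (cX := cX) (k := k) (c0 := c0) n t with h | ⟨H, -, h⟩
    · rw [h]; exact ih
    · rw [h]; exact ih.trans (CL_prefix _ _ _)

theorem Th_seg (t : ℕ) (z : Str × Str) : Th cD cX k c0 (seg X' t) z =
    (((CL ((parse1 z.1).unpair.1 + c0) (HX X' cD cX k c0 (parse1 z.1).unpair.1 t)).filter
    (fun q => decide (q.2 = (parse1 z.1).unpair.2)))[parse2 z.1]?).map Prod.fst := by
  unfold Th
  rw [seg_length, hist_seg _ le_rfl]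

theorem Th_mono (z : Str × Str) (s t : ℕ) (v : Str) (hst : s ≤ t)
    (h : Th cD cX k c0 (seg X' s) z = some v) : Th cD cX k c0 (seg X' t) z = some v := by
  rw [Th_seg] at h ⊢
  obtain ⟨q, hq, hv⟩ := Option.map_eq_some_iff.1 h
  refine Option.map_eq_some_iff.2 ⟨q, ?_, hv⟩
  have hpre := CL_mono_t (X' := X') (cD := cD) (cX := cX) (k := k) (c0 := c0)
    ((parse1 z.1).unpair.1 + c0) (parse1 z.1).unpair.1 hst
  have hpre2 := hpre.filter (fun q => decide (q.2 = (parse1 z.1).unpair.2))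
  obtain ⟨r, hr⟩ := hpre2
  rw [← hr]
  rw [List.getElem?_append_left]
  · exact hq
  · exact (List.getElem?_eq_some_iff.1 hq).1

/-- the table is consistent with the whole oracle -/
def Good (X' : ℕ → ℕ) (cX : Code) (c0 n : ℕ) (R : Tab) : Prop :=
  ∀ t, consB cX c0 n (seg X' t) R = true

theorem exists_good (hX : CodeX X' cX D') (n : ℕ) :
    ∃ R ∈ tabs (strs (n + 1)) (strs (n + c0 + 1)), Good X' cX c0 n R := by
  classical
  let f : Str → Option Str := fun p =>
    if h : ∃ v ∈ D' p [], v.length ≤ n then some (Classical.choose h) else none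
  have hf : ∀ p v, f p = some v → v ∈ D' p [] ∧ v.length ≤ n := by
    intro p v hv
    simp only [f] at hv
    split_ifs at hv with h
    have := Classical.choose_spec h
    cases hv
    exact this
  obtain ⟨R, hR, hR'⟩ := exists_tab (strs (n + 1)) f (strs (n + c0 + 1)) (by
    intro p _ v hv
    rw [mem_strs]
    have := (hf p v hv).2
    omega)
  refine ⟨R, hR, fun t => consB_iff.2 fun p hp v hv => ?_⟩
  have hv' := valS_sound hX hv
  by_cases hn : n < v.length
  · exact Or.inl hn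
  · right
    have hex : ∃ v ∈ D' p [], v.length ≤ n := ⟨v, hv', by omega⟩
    have h1 : f p = some (Classical.choose hex) := by simp only [f]; rw [dif_pos hex]
    have h2 : Classical.choose hex = v :=
      Part.mem_unique (Classical.choose_spec hex).1 hv'
    exact hR' p (mem_strs.2 (by omega)) v (by rw [h1, h2])

theorem exists_E (D : Str → Str →. Str) (y : Str) :
    ∃ E : ℕ → Finset Str, (∀ m, (E m).card ≤ 2 ^ m) ∧
      ∀ m z, (∃ r : Str, r.length < m ∧ z ∈ D r y) → z ∈ E m := by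
  classical
  let f : Str → Option Str := fun r =>
    if h : ∃ v, v ∈ D r y then some (Classical.choose h) else none
  refine ⟨fun m => ((strs m).filterMap f).toFinset, fun m => ?_, ?_⟩
  · refine le_trans (List.toFinset_card_le _) (le_trans (List.length_filterMap_le _ _) ?_)
    have := strs_length m
    omega
  · rintro m z ⟨r, hr, hz⟩
    rw [List.mem_toFinset, List.mem_filterMap]
    refine ⟨r, mem_strs.2 hr, ?_⟩
    have hex : ∃ v, v ∈ D r y := ⟨z, hz⟩
    simp only [f]
    rw [dif_pos hex]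
    exact congrArg some (Part.mem_unique (Classical.choose_spec hex) hz)

theorem HX_valid (hX : CodeX X' cX D') (hD : CodeD cD D) (n : ℕ) :
    ∃ E : ℕ → Finset Str, (∀ m, (E m).card ≤ 2 ^ m) ∧
      ∀ t, VH (n + c0) (n ^ k) E (HX X' cD cX k c0 n t) := by
  obtain ⟨R, hR, hg⟩ := exists_good (c0 := c0) hX n
  obtain ⟨E, hE, hE'⟩ := exists_E D (yR R)
  refine ⟨E, hE, fun t => ?_⟩
  induction t with
  | zero => trivial
  | succ t ih =>
    rcases HX_cases (X' := X') (cD := cD) (cX := cX) (k := k) (c0 := c0) n t with h | ⟨H, hc, h⟩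
    · rw [h]; exact ih
    · rw [h]
      obtain ⟨h1, h2, h3⟩ := certB_iff.1 hc
      obtain ⟨q, hq, hhit⟩ := h3 R hR (hg t)
      exact ⟨⟨h1, h2, q, hq, hE' _ _ (hitB_sound hD hhit)⟩, ih⟩

theorem HX_stab (hX : CodeX X' cX D') (hD : CodeD cD D) (n : ℕ) :
    ∃ T, ∀ t ≥ T, HX X' cD cX k c0 n t = HX X' cD cX k c0 n T := by
  obtain ⟨E, hE, hv⟩ := HX_valid (k := k) (c0 := c0) hX hD n
  have hb : ∀ t, (HX X' cD cX k c0 n t).length ≤ (n + c0 + 1) * 2 ^ (n + c0 + 1) :=
    fun t => length_le hE (hv t)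
  obtain ⟨T, hT⟩ : ∃ T, ∀ t, (HX X' cD cX k c0 n t).length ≤ (HX X' cD cX k c0 n T).length := by
    have hne : (Set.range fun t => (HX X' cD cX k c0 n t).length).Nonempty := ⟨_, 0, rfl⟩
    have hbd : BddAbove (Set.range fun t => (HX X' cD cX k c0 n t).length) :=
      ⟨_, by rintro _ ⟨t, rfl⟩; exact hb t⟩
    obtain ⟨T, hT⟩ := Nat.sSup_mem hne hbd
    exact ⟨T, fun t => by
      have := le_csSup hbd ⟨t, rfl⟩
      simp only at hT
      rw [hT]; exact this⟩
  refine ⟨T, fun t ht => ?_⟩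
  induction t, ht using Nat.le_induction with
  | base => rfl
  | succ t _ ih =>
    rcases HX_cases (X' := X') (cD := cD) (cX := cX) (k := k) (c0 := c0) n t with h | ⟨H, -, h⟩
    · rw [h]; exact ih
    · exfalso
      have := hT (t + 1)
      rw [h, List.length_cons, ih] at this
      omega

/-- uniform bound over a list -/
theorem exists_unif {α : Type} (l : List α) (P : α → ℕ → Prop)
    (h : ∀ a ∈ l, ∃ t0, ∀ t ≥ t0, P a t) : ∃ t0, ∀ a ∈ l, ∀ t ≥ t0, P a t := by
  induction l with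
  | nil => exact ⟨0, by simp⟩
  | cons a l ih =>
    obtain ⟨t1, h1⟩ := ih fun b hb => h b (List.mem_cons_of_mem _ hb)
    obtain ⟨t2, h2⟩ := h a List.mem_cons_self
    refine ⟨max t1 t2, fun b hb t ht => ?_⟩
    rcases List.mem_cons.1 hb with rfl | hb
    · exact h2 t (le_trans (le_max_right _ _) ht)
    · exact h1 b hb t (le_trans (le_max_left _ _) ht)

theorem size_bound {n k c0 m j : ℕ} (hn : 2 ≤ n) (hm : m ≤ n + c0)
    (hj : j < n ^ k * 2 ^ (m + 1) * (n + c0 + 1)) :
    ∃ w : Str, w.length ≤ m + (12 + 5 * c0 + 2 * k) * Nat.log 2 n ∧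
      parse1 w = Nat.pair n m ∧ parse2 w = j := by
  set l := Nat.log 2 n with hl
  have hl1 : 1 ≤ l := by
    rw [hl]
    exact Nat.log_pos (by norm_num) hn
  have hnl : n < 2 ^ (l + 1) := Nat.lt_pow_succ_log_self (by norm_num) n
  have hN : n + c0 + 1 ≤ 2 ^ (l + 1 + c0) := by
    have h1 : c0 + 1 ≤ 2 ^ c0 := Nat.lt_two_pow_self
    have h2 : 1 ≤ 2 ^ (l + 1) := Nat.one_le_two_pow
    have h3 : 2 ^ (l + 1) * (c0 + 1) ≤ 2 ^ (l + 1) * 2 ^ c0 := Nat.mul_le_mul_left _ h1
    rw [pow_add]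
    nlinarith
  have ha : Nat.pair n m < 2 ^ (2 * (l + 1 + c0)) := by
    refine lt_of_lt_of_le (Nat.pair_lt_max_add_one_sq n m) ?_
    have h1 : max n m + 1 ≤ 2 ^ (l + 1 + c0) := by
      have : max n m ≤ n + c0 := max_le (by omega) hm
      omega
    calc (max n m + 1) ^ 2 ≤ (2 ^ (l + 1 + c0)) ^ 2 := Nat.pow_le_pow_left h1 2
      _ = 2 ^ (2 * (l + 1 + c0)) := by rw [← pow_mul]; congr 1; ring
  have hj' : j < 2 ^ ((l + 1) * k + (m + 1) + (l + 1 + c0)) := by
    refine lt_of_lt_of_le hj ?_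
    have he : 2 ^ ((l + 1) * k + (m + 1) + (l + 1 + c0)) =
        2 ^ ((l + 1) * k) * 2 ^ (m + 1) * 2 ^ (l + 1 + c0) := by
      rw [pow_add _ ((l + 1) * k + (m + 1)), pow_add _ ((l + 1) * k)]
    rw [he]
    refine Nat.mul_le_mul (Nat.mul_le_mul ?_ le_rfl) hN
    rw [pow_mul]
    exact Nat.pow_le_pow_left hnl.le k
  obtain ⟨w, hw, h1, h2⟩ := exists_parse ha hj'
  refine ⟨w, ?_, h1, h2⟩
  rw [hw]
  nlinarith [Nat.mul_le_mul_left c0 hl1, Nat.mul_le_mul_left k hl1]

/-- the key step: some good table does not shorten any element of `S` by more than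
`O(log n)` below its oracle complexity -/
theorem key (hX : CodeX X' cX D') (hD : CodeD cD D) {c2 : ℕ}
    (hc0 : ∀ s : Str, KC D' s [] ≤ s.length + c0)
    (hc2 : ∀ (w s : Str) (t : ℕ), Th cD cX k c0 (seg X' t) (w, []) = some s →
      KC D' s [] ≤ w.length + c2)
    (hDex : ∀ s y : Str, ∃ p, s ∈ D p y)
    {n : ℕ} (hn : 2 ≤ n) (S : Finset Str) (hS : ∀ s ∈ S, s.length ≤ n) (hcard : S.card ≤ n ^ k) :
    ∃ R, Good X' cX c0 n R ∧ ∀ s ∈ S,
      KC D' s [] ≤ KC D s (yR R) + (13 + 5 * c0 + 2 * k + c2) * Nat.log 2 n := by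
  classical
  by_contra hcon
  push Not at hcon
  set M := 13 + 5 * c0 + 2 * k + c2 with hM
  set l := Nat.log 2 n with hl
  have hl1 : 1 ≤ l := by
    rw [hl]
    exact Nat.log_pos (by norm_num) hn
  obtain ⟨T, hT⟩ := HX_stab (k := k) (c0 := c0) hX hD n
  obtain ⟨E, hE, hv⟩ := HX_valid (k := k) (c0 := c0) hX hD n
  let H0 : Cert := (S.toList.filter (fun s => decide (M * l < KC D' s []))).map
    (fun s => (s, KC D' s [] - M * l))
  have hmem : ∀ q ∈ H0, q.1 ∈ S ∧ KC D' q.1 [] = q.2 + M * l := by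
    intro q hq
    obtain ⟨s, hs, rfl⟩ := List.mem_map.1 hq
    rw [List.mem_filter] at hs
    have h1 : M * l < KC D' s [] := by simpa using hs.2
    refine ⟨Finset.mem_toList.1 hs.1, ?_⟩
    show KC D' s [] = KC D' s [] - M * l + M * l
    omega
  have hlev : ∀ q ∈ H0, q.2 ≤ n + c0 := by
    intro q hq
    obtain ⟨h1, h2⟩ := hmem q hq
    have h3 := hc0 q.1
    have h4 := hS _ h1
    omega
  have hunch : ∀ q ∈ H0, cw (n + c0) (HX X' cD cX k c0 n T) q < 2 ^ (n + c0) := by
    intro q hq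
    by_contra hch
    push Not at hch
    rw [← mem_CL] at hch
    have hin : q ∈ (CL (n + c0) (HX X' cD cX k c0 n T)).filter
        (fun q' => decide (q'.2 = q.2)) := by
      rw [List.mem_filter]; exact ⟨hch, by simp⟩
    obtain ⟨j, hj, hjq⟩ := List.getElem_of_mem hin
    have hjb : j < n ^ k * 2 ^ (q.2 + 1) * (n + c0 + 1) :=
      lt_of_lt_of_le hj (CL_level_length hE (hv T) q.2)
    obtain ⟨w, hw, hw1, hw2⟩ := size_bound hn (hlev q hq) hjb
    rw [← hl] at hw
    have hTh : Th cD cX k c0 (seg X' T) (w, []) = some q.1 := by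
      rw [Th_seg]
      simp only [hw1, hw2, Nat.unpair_pair]
      rw [List.getElem?_eq_getElem hj, hjq]
      rfl
    have h1 := hc2 w q.1 T hTh
    have h2 := (hmem q hq).2
    rw [h2] at h1
    have h3 : q.2 + M * l ≤ q.2 + (12 + 5 * c0 + 2 * k) * l + c2 := le_trans h1 (by omega)
    have h4 : c2 ≤ c2 * l := Nat.le_mul_of_pos_right _ hl1
    rw [hM] at h3
    nlinarith
  obtain ⟨t0, ht0⟩ := exists_unif (tabs (strs (n + 1)) (strs (n + c0 + 1)))
    (fun R t => consB cX c0 n (seg X' t) R = true → ∃ q ∈ H0, hitB cD (seg X' t) R q = true) (by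
    intro R _
    by_cases hg : Good X' cX c0 n R
    · obtain ⟨s, hs, hlt⟩ := hcon R hg
      obtain ⟨p, hp⟩ := hDex s (yR R)
      obtain ⟨r, hr, hrl⟩ := KC_spec hp
      have hq : (s, KC D' s [] - M * l) ∈ H0 := by
        refine List.mem_map.2 ⟨s, ?_, rfl⟩
        rw [List.mem_filter]
        exact ⟨Finset.mem_toList.2 hs, by simp; omega⟩
      obtain ⟨t0, h0⟩ := hitB_complete (X' := X') hD (q := (s, KC D' s [] - M * l))
        (r := r) (R := R) (by simp only; omega) hr
      exact ⟨t0, fun t ht _ => ⟨_, hq, h0 t ht⟩⟩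
    · unfold Good at hg
      push Not at hg
      obtain ⟨t0, h0⟩ := hg
      refine ⟨t0, fun t ht hc => absurd (consB_anti ht hc) (by simpa using h0)⟩)
  let t := max (max T t0) (encode H0 + 1)
  have htT : T ≤ t := le_trans (le_max_left _ _) (le_max_left _ _)
  have htt : t0 ≤ t := le_trans (le_max_right _ _) (le_max_left _ _)
  have hte : encode H0 < t := lt_of_lt_of_le (Nat.lt_succ_self _) (le_max_right _ _)
  refine HX_change (X' := X') (cD := cD) (cX := cX) (k := k) (c0 := c0) n t (H := H0) hte ?_ ?_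
  · rw [certB_iff]
    refine ⟨?_, ?_, fun R hR hc => ht0 R hR t htt hc⟩
    · refine le_trans ?_ hcard
      simp only [H0, List.length_map]
      exact le_trans (List.length_filter_le _ _) (le_of_eq S.length_toList)
    · intro q hq
      rw [hT t htT]
      exact ⟨hlev q hq, hunch q hq⟩
  · rw [hT (t + 1) (by omega), hT t htT]

end process

theorem main (D : Str → Str →. Str) (hD : IsOptimal D) (X : ℕ → Bool) (D' : Str → Str →. Str)
    (hD' : IsOptimalIn X D') (k : ℕ) :
    ∃ c : ℝ, ∀ n : ℕ, 2 ≤ n → ∀ S : Finset Str, (∀ s ∈ S, s.length ≤ n) → S.card ≤ n ^ k →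
      ∃ x₀ : Str, ∀ s ∈ S, |(KC D s x₀ : ℝ) - (KC D' s [] : ℝ)| ≤ c * Real.log n := by
  let X' : ℕ → ℕ := fun n => (X n).toNat
  obtain ⟨cD, hcD⟩ := code_of_partrec hD.1
  obtain ⟨cX, hcX⟩ := oracle_code X' (D := fun z : Str × Str => D' z.1 z.2) hD'.1
  -- upper bound by the length
  obtain ⟨c0, hc0⟩ := hD'.2 (fun p _ => Part.some p)
    (Primrec.fst.to_comp.partrec.recursiveIn)
  have hc0' : ∀ s : Str, KC D' s [] ≤ s.length + c0 := by
    intro s
    obtain ⟨q, hq, hl⟩ := hc0 s [] s (Part.mem_some s)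
    exact le_trans (KC_le hq) hl
  have hDex : ∀ s y : Str, ∃ p, s ∈ D p y := by
    obtain ⟨c, hc⟩ := hD.2 (fun p _ => Part.some p) Computable.fst.partrec
    intro s y
    obtain ⟨q, hq, -⟩ := hc s y s (Part.mem_some s)
    exact ⟨q, hq⟩
  -- the table decompressor
  obtain ⟨c1, hc1⟩ := hD.2
    (fun p y => (((decode (α := Tab) y.length).bind (fun R => lk R p) : Option Str) : Part Str)) (by
    refine Computable.ofOption (Primrec.to_comp ?_)
    refine Primrec.option_bind
      (f := fun x : Str × Str => decode (α := Tab) x.2.length) (g := fun x R => lk R x.1)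
      (Primrec.decode.comp (Primrec.list_length.comp Primrec.snd)) ?_
    exact lk_primrec.comp Primrec.snd (Primrec.fst.comp Primrec.fst))
  -- the charged pair decompressor
  obtain ⟨c2, hc2⟩ := hD'.2
    (fun w y => Nat.rfindOpt (fun t => Th cD cX k c0 (seg X' t) (w, y)))
    (search_rec X' (Th_primrec cD cX k c0))
  have hc2' : ∀ (w s : Str) (t : ℕ), Th cD cX k c0 (seg X' t) (w, []) = some s →
      KC D' s [] ≤ w.length + c2 := by
    intro w s t ht
    have hmem : s ∈ Nat.rfindOpt (fun t => Th cD cX k c0 (seg X' t) (w, [])) := by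
      rw [mem_rfindOpt]
      · exact ⟨t, ht⟩
      · intro s t v hst h
        exact Th_mono _ s t v hst h
    obtain ⟨q, hq, hl⟩ := hc2 w [] s hmem
    exact le_trans (KC_le hq) hl
  set M := 13 + 5 * c0 + 2 * k + c2 with hM
  refine ⟨((M : ℝ) + c1) / Real.log 2, fun n hn S hS hcard => ?_⟩
  obtain ⟨R, hR, hlow⟩ := key (X' := X') (cD := cD) (cX := cX) hcX hcD hc0' hc2' hDex hn S hS hcard
  refine ⟨yR R, fun s hs => ?_⟩
  have hup : KC D s (yR R) ≤ KC D' s [] + c1 := by
    obtain ⟨q, hq, -⟩ := hc0 s [] s (Part.mem_some s)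
    obtain ⟨p, hp, hpl⟩ := KC_spec hq
    obtain ⟨t, ht⟩ := valS_complete (X' := X') (cX := cX) hcX hp
    have hsn := hS s hs
    have h1 := consB_iff.1 (hR t) p (by rw [hpl]; exact le_trans (hc0' s) (by omega)) s ht
    have h2 : lk R p = some s := by
      rcases h1 with h1 | h1
      · omega
      · exact h1
    obtain ⟨r, hr, hrl⟩ := hc1 p (yR R) s (by simp [yR, h2])
    exact le_trans (KC_le hr) (by omega)
  have hlo := hlow s hs
  have hlog2 : 0 < Real.log 2 := Real.log_pos (by norm_num)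
  have hlogn : Real.log 2 ≤ Real.log n :=
    Real.log_le_log (by norm_num) (by exact_mod_cast hn)
  have hnat : (Nat.log 2 n : ℝ) * Real.log 2 ≤ Real.log n := by
    rw [← Real.log_pow]
    refine Real.log_le_log (by positivity) ?_
    exact_mod_cast Nat.pow_log_le_self 2 (by omega)
  have hnat' : (Nat.log 2 n : ℝ) ≤ Real.log n / Real.log 2 := by
    rw [le_div_iff₀ hlog2]; exact hnat
  have hone : (1 : ℝ) ≤ Real.log n / Real.log 2 := by
    rw [le_div_iff₀ hlog2]; linarith
  have hcc : ((M : ℝ) + c1) / Real.log 2 * Real.log n =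
      M * (Real.log n / Real.log 2) + c1 * (Real.log n / Real.log 2) := by ring
  rw [hcc, abs_le]
  have hMnn : (0 : ℝ) ≤ M := Nat.cast_nonneg _
  have hc1nn : (0 : ℝ) ≤ c1 := Nat.cast_nonneg _
  have h1 : (KC D' s [] : ℝ) ≤ KC D s (yR R) + M * Nat.log 2 n := by
    exact_mod_cast hlo
  have h2 : (KC D s (yR R) : ℝ) ≤ KC D' s [] + c1 := by exact_mod_cast hup
  have h3 : (M : ℝ) * Nat.log 2 n ≤ M * (Real.log n / Real.log 2) :=
    mul_le_mul_of_nonneg_left hnat' hMnn
  have h4 : (c1 : ℝ) ≤ c1 * (Real.log n / Real.log 2) := by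
    nlinarith
  have h5 : (0 : ℝ) ≤ M * (Real.log n / Real.log 2) :=
    mul_nonneg hMnn (by linarith)
  constructor <;> linarith

end Pool.Agent.Lib.MP_f7c71a_lc
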