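import Pool.Agent.Lib.MP_f7c71a_lc.Exist

set_option autoImplicit false

/-!
The oracle process that enumerates certificates, and its primitive recursiveness.
-/

namespace Pool.Agent.Lib.MP_f7c71a_lc

open Nat.Partrec (Code)
open Nat.Partrec.Code Encodable
open Pool.Agent.Lib.MP_f26228_lc (seg seg_length seg_getElem? seg_prefix seg_take use_principle
  val val_primrec val_mono valt_sound val_complete exists_code_functional Mono)

/-- association tables (programs to outputs) -/
abbrev Tab := List (Str × Str)
/-- certificates: lists of pairs (string, level) -/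
abbrev Cert := List (Str × ℕ)

/-- the condition coding a table -/
def yR (R : Tab) : Str := List.replicate (encode R) true

/-- decoded value of the oracle computation -/
def valS (cX : Code) (ρ : List ℕ) (p : Str) : Option Str :=
  (val cX ρ (encode (p, ([] : Str)))).bind (fun v => (decode v : Option Str))

/-- consistency of a table with a string -/
def consB (cX : Code) (c0 n : ℕ) (ρ : List ℕ) (R : Tab) : Bool :=
  (strs (n + c0 + 1)).all (fun p =>
    ((valS cX ρ p).map (fun v => decide (n < v.length) || decide (lk R p = some v))).getD true)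

/-- the pair `(z, m)` is hit by the table `R` -/
def hitB (cD : Code) (ρ : List ℕ) (R : Tab) (q : Str × ℕ) : Bool :=
  (strs q.2).any (fun r => decide (evaln ρ.length cD (encode (r, yR R)) = some (encode q.1)))

/-- maximal level -/
def mmax (H : Cert) : ℕ := H.foldr (fun q acc => max q.2 acc) 0

/-- weight of a pair -/
def cw (N : ℕ) (h : List Cert) (q : Str × ℕ) : ℕ :=
  h.foldr (fun H acc => acc + (bif H.any (fun q' => decide (q' = q)) then
    2 ^ (N + q.2 - mmax H) else 0)) 0

/-- certificates acceptable after the history `h` -/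
def certB (cD cX : Code) (k c0 n : ℕ) (h : List Cert) (ρ : List ℕ) (H : Cert) : Bool :=
  decide (H.length ≤ n ^ k) && (H.all (fun q => decide (q.2 ≤ n + c0) &&
    decide (cw (n + c0) h q < 2 ^ (n + c0))) &&
  (tabs (strs (n + 1)) (strs (n + c0 + 1))).all (fun R => !(consB cX c0 n ρ R) ||
    H.any (fun q => hitB cD ρ R q)))

/-- first acceptable certificate with code below `t` -/
def pick (cD cX : Code) (k c0 n : ℕ) (h : List Cert) (ρ : List ℕ) (t : ℕ) : Option Cert :=
  ((List.range t).filterMap (fun i => (decode (α := Cert) i).bind (fun H =>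
    bif certB cD cX k c0 n h ρ H then some H else none))).head?

/-- one step of the process -/
def step (cD cX : Code) (k c0 n : ℕ) (h : List Cert) (ρ : List ℕ) (t : ℕ) : List Cert :=
  ((pick cD cX k c0 n h ρ t).map (fun H => H :: h)).getD h

/-- history after `t` steps -/
def hist (cD cX : Code) (k c0 n : ℕ) (ρ : List ℕ) (t : ℕ) : List Cert :=
  t.rec [] (fun s ih => step cD cX k c0 n ih (ρ.take s) s)

/-- insert at the end if new -/
def insN (L : Cert) (q : Str × ℕ) : Cert := bif L.any (fun q' => decide (q' = q)) then L else L ++ [q]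

/-- list of charged pairs, in order of appearance -/
def CL (N : ℕ) : List Cert → Cert
  | [] => []
  | H :: h => (H.filter (fun q => decide (2 ^ N ≤ cw N (H :: h) q))).foldl insN (CL N h)

/-- output of the oracle decompressor, staged -/
def Th (cD cX : Code) (k c0 : ℕ) (ρ : List ℕ) (z : Str × Str) : Option Str :=
  (((CL ((parse1 z.1).unpair.1 + c0) (hist cD cX k c0 (parse1 z.1).unpair.1 ρ ρ.length)).filter
    (fun q => decide (q.2 = (parse1 z.1).unpair.2)))[parse2 z.1]?).map Prod.fst

section prim

variable (cD cX : Code) (k c0 : ℕ)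

theorem yR_primrec : Primrec yR := (prim_replicate true).comp Primrec.encode

theorem valS_primrec : Primrec (fun z : List ℕ × Str => valS cX z.1 z.2) := by
  unfold valS
  refine Primrec.option_bind (f := fun z : List ℕ × Str => val cX z.1 (encode (z.2, ([] : Str))))
    (g := fun _ v => (decode v : Option Str)) ?_ (Primrec.decode.comp Primrec.snd)
  refine val_primrec.comp
    (g := fun z : List ℕ × Str => ((cX, z.1), encode (z.2, ([] : Str)))) ?_
  exact Primrec.pair (Primrec.pair (Primrec.const cX) Primrec.fst)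
    (Primrec.encode.comp (Primrec.pair Primrec.snd (Primrec.const [])))

theorem consB_primrec :
    Primrec (fun z : (ℕ × List ℕ) × Tab => consB cX c0 z.1.1 z.1.2 z.2) := by
  unfold consB
  refine prim_all (f := fun z : (ℕ × List ℕ) × Tab => strs (z.1.1 + c0 + 1))
    (p := fun z p => ((valS cX z.1.2 p).map (fun v => decide (z.1.1 < v.length) ||
      decide (lk z.2 p = some v))).getD true) ?_ ?_
  · exact strs_primrec.comp (Primrec.succ.comp
      (Primrec.nat_add.comp (Primrec.fst.comp Primrec.fst) (Primrec.const c0)))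
  · refine Primrec.option_getD.comp ?_ (Primrec.const true)
    refine Primrec.option_map
      (f := fun x : ((ℕ × List ℕ) × Tab) × Str => valS cX x.1.1.2 x.2)
      (g := fun x v => decide (x.1.1.1 < v.length) || decide (lk x.1.2 x.2 = some v)) ?_ ?_
    · exact (valS_primrec cX).comp
        (g := fun x : ((ℕ × List ℕ) × Tab) × Str => (x.1.1.2, x.2))
        (Primrec.pair (Primrec.snd.comp (Primrec.fst.comp Primrec.fst)) Primrec.snd)
    · have hv : Primrec (fun y : (((ℕ × List ℕ) × Tab) × Str) × Str => y.2) := Primrec.snd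
      have hn : Primrec (fun y : (((ℕ × List ℕ) × Tab) × Str) × Str => y.1.1.1.1) :=
        Primrec.fst.comp (Primrec.fst.comp (Primrec.fst.comp Primrec.fst))
      have hR : Primrec (fun y : (((ℕ × List ℕ) × Tab) × Str) × Str => y.1.1.2) :=
        Primrec.snd.comp (Primrec.fst.comp Primrec.fst)
      have hp : Primrec (fun y : (((ℕ × List ℕ) × Tab) × Str) × Str => y.1.2) :=
        Primrec.snd.comp Primrec.fst
      refine Primrec.or.comp ?_ ?_
      · exact prim_dlt hn (Primrec.list_length.comp hv)
      · exact prim_deq (lk_primrec.comp hR hp) (Primrec.option_some.comp hv)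

theorem hitB_primrec :
    Primrec (fun z : (List ℕ × Tab) × (Str × ℕ) => hitB cD z.1.1 z.1.2 z.2) := by
  unfold hitB
  refine prim_any (f := fun z : (List ℕ × Tab) × (Str × ℕ) => strs z.2.2)
    (p := fun z r => decide (evaln z.1.1.length cD (encode (r, yR z.1.2)) = some (encode z.2.1)))
    (strs_primrec.comp (Primrec.snd.comp Primrec.snd)) ?_
  refine prim_deq ?_ ?_
  · refine primrec_evaln.comp (g := fun x : ((List ℕ × Tab) × (Str × ℕ)) × Str =>
      ((x.1.1.1.length, cD), encode (x.2, yR x.1.1.2))) ?_
    refine Primrec.pair (Primrec.pair ?_ (Primrec.const cD)) ?_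
    · exact Primrec.list_length.comp (Primrec.fst.comp (Primrec.fst.comp Primrec.fst))
    · refine Primrec.encode.comp (Primrec.pair Primrec.snd ?_)
      exact yR_primrec.comp (Primrec.snd.comp (Primrec.fst.comp Primrec.fst))
  · exact Primrec.option_some.comp (Primrec.encode.comp
      (Primrec.fst.comp (Primrec.snd.comp Primrec.fst)))

theorem mmax_primrec : Primrec mmax := by
  unfold mmax
  refine Primrec.list_foldr (h := fun (_ : Cert) (y : (Str × ℕ) × ℕ) => max y.1.2 y.2)
    Primrec.id (Primrec.const 0) ?_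
  exact prim_max (Primrec.snd.comp (Primrec.fst.comp Primrec.snd)) (Primrec.snd.comp Primrec.snd)

theorem mem_primrec {α β : Type} [Primcodable α] [Primcodable β] [DecidableEq β]
    {f : α → List β} {g : α → β} (hf : Primrec f) (hg : Primrec g) :
    Primrec (fun a => (f a).any (fun b => decide (b = g a))) :=
  prim_any (p := fun a b => decide (b = g a)) hf (prim_deq Primrec.snd (hg.comp Primrec.fst))

theorem cw_primrec :
    Primrec (fun z : (ℕ × List Cert) × (Str × ℕ) => cw z.1.1 z.1.2 z.2) := by
  unfold cw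
  refine Primrec.list_foldr (f := fun z : (ℕ × List Cert) × (Str × ℕ) => z.1.2)
    (g := fun _ => 0)
    (h := fun z (y : Cert × ℕ) => y.2 + (bif y.1.any (fun q' => decide (q' = z.2)) then
      2 ^ (z.1.1 + z.2.2 - mmax y.1) else 0)) (Primrec.snd.comp Primrec.fst) (Primrec.const 0) ?_
  refine Primrec.nat_add.comp (Primrec.snd.comp Primrec.snd) ?_
  refine prim_bcond (mem_primrec (Primrec.fst.comp Primrec.snd) (Primrec.snd.comp Primrec.fst)) ?_
    (Primrec.const 0)
  refine prim_pow (Primrec.const 2) ?_
  refine Primrec.nat_sub.comp (Primrec.nat_add.comp ?_ ?_) ?_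
  · exact Primrec.fst.comp (Primrec.fst.comp Primrec.fst)
  · exact Primrec.snd.comp (Primrec.snd.comp Primrec.fst)
  · exact mmax_primrec.comp (Primrec.fst.comp Primrec.snd)

theorem certB_primrec :
    Primrec (fun z : (ℕ × List Cert) × (List ℕ × Cert) =>
      certB cD cX k c0 z.1.1 z.1.2 z.2.1 z.2.2) := by
  unfold certB
  have hn : Primrec (fun z : (ℕ × List Cert) × (List ℕ × Cert) => z.1.1) :=
    Primrec.fst.comp Primrec.fst
  have hh : Primrec (fun z : (ℕ × List Cert) × (List ℕ × Cert) => z.1.2) :=
    Primrec.snd.comp Primrec.fst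
  have hr : Primrec (fun z : (ℕ × List Cert) × (List ℕ × Cert) => z.2.1) :=
    Primrec.fst.comp Primrec.snd
  have hH : Primrec (fun z : (ℕ × List Cert) × (List ℕ × Cert) => z.2.2) :=
    Primrec.snd.comp Primrec.snd
  have hnc : Primrec (fun z : (ℕ × List Cert) × (List ℕ × Cert) => z.1.1 + c0) :=
    Primrec.nat_add.comp hn (Primrec.const c0)
  refine Primrec.and.comp ?_ (Primrec.and.comp ?_ ?_)
  · exact prim_dle (Primrec.list_length.comp hH) (prim_pow hn (Primrec.const k))
  · refine prim_all (p := fun z q => decide (q.2 ≤ z.1.1 + c0) &&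
      decide (cw (z.1.1 + c0) z.1.2 q < 2 ^ (z.1.1 + c0))) hH ?_
    refine Primrec.and.comp ?_ ?_
    · exact prim_dle (Primrec.snd.comp Primrec.snd) (hnc.comp Primrec.fst)
    · refine prim_dlt ?_ (prim_pow (Primrec.const 2) (hnc.comp Primrec.fst))
      exact cw_primrec.comp (g := fun x : ((ℕ × List Cert) × (List ℕ × Cert)) × (Str × ℕ) =>
        ((x.1.1.1 + c0, x.1.1.2), x.2))
        (Primrec.pair (Primrec.pair (hnc.comp Primrec.fst) (hh.comp Primrec.fst)) Primrec.snd)
  · refine prim_all (f := fun z : (ℕ × List Cert) × (List ℕ × Cert) =>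
        tabs (strs (z.1.1 + 1)) (strs (z.1.1 + c0 + 1)))
      (p := fun z R => !(consB cX c0 z.1.1 z.2.1 R) || z.2.2.any (fun q => hitB cD z.2.1 R q))
      ?_ ?_
    · exact tabs_primrec.comp (strs_primrec.comp (Primrec.succ.comp hn))
        (strs_primrec.comp (Primrec.succ.comp hnc))
    · refine Primrec.or.comp (Primrec.not.comp ?_) ?_
      · exact (consB_primrec cX c0).comp
          (g := fun x : ((ℕ × List Cert) × (List ℕ × Cert)) × Tab => ((x.1.1.1, x.1.2.1), x.2))
          (Primrec.pair (Primrec.pair (hn.comp Primrec.fst) (hr.comp Primrec.fst)) Primrec.snd)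
      · refine prim_any (f := fun x : ((ℕ × List Cert) × (List ℕ × Cert)) × Tab => x.1.2.2)
          (p := fun x q => hitB cD x.1.2.1 x.2 q) (hH.comp Primrec.fst) ?_
        exact (hitB_primrec cD).comp
          (g := fun y : (((ℕ × List Cert) × (List ℕ × Cert)) × Tab) × (Str × ℕ) =>
            ((y.1.1.2.1, y.1.2), y.2))
          (Primrec.pair (Primrec.pair (hr.comp (Primrec.fst.comp Primrec.fst))
            (Primrec.snd.comp Primrec.fst)) Primrec.snd)

theorem pick_primrec :
    Primrec (fun z : (ℕ × List Cert) × (List ℕ × ℕ) =>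
      pick cD cX k c0 z.1.1 z.1.2 z.2.1 z.2.2) := by
  unfold pick
  refine Primrec.list_head?.comp ?_
  refine Primrec.listFilterMap (f := fun z : (ℕ × List Cert) × (List ℕ × ℕ) => List.range z.2.2)
    (g := fun z i => (decode (α := Cert) i).bind (fun H =>
      bif certB cD cX k c0 z.1.1 z.1.2 z.2.1 H then some H else none))
    (Primrec.list_range.comp (Primrec.snd.comp Primrec.snd)) ?_
  refine Primrec.option_bind
    (f := fun x : ((ℕ × List Cert) × (List ℕ × ℕ)) × ℕ => decode (α := Cert) x.2)
    (g := fun x H => bif certB cD cX k c0 x.1.1.1 x.1.1.2 x.1.2.1 H then some H else none)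
    (Primrec.decode.comp Primrec.snd) ?_
  refine prim_bcond ?_ (Primrec.option_some.comp Primrec.snd) (Primrec.const none)
  refine (certB_primrec cD cX k c0).comp
    (g := fun y : (((ℕ × List Cert) × (List ℕ × ℕ)) × ℕ) × Cert =>
      (y.1.1.1, (y.1.1.2.1, y.2))) ?_
  exact Primrec.pair (Primrec.fst.comp (Primrec.fst.comp Primrec.fst))
    (Primrec.pair (Primrec.fst.comp (Primrec.snd.comp (Primrec.fst.comp Primrec.fst)))
      Primrec.snd)

theorem step_primrec :
    Primrec (fun z : (ℕ × List Cert) × (List ℕ × ℕ) =>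
      step cD cX k c0 z.1.1 z.1.2 z.2.1 z.2.2) := by
  unfold step
  refine Primrec.option_getD.comp ?_ (Primrec.snd.comp Primrec.fst)
  refine Primrec.option_map (f := fun z : (ℕ × List Cert) × (List ℕ × ℕ) =>
      pick cD cX k c0 z.1.1 z.1.2 z.2.1 z.2.2)
    (g := fun z H => H :: z.1.2) (pick_primrec cD cX k c0) ?_
  exact Primrec.list_cons.comp Primrec.snd (Primrec.snd.comp (Primrec.fst.comp Primrec.fst))

theorem hist_primrec :
    Primrec (fun z : (ℕ × List ℕ) × ℕ => hist cD cX k c0 z.1.1 z.1.2 z.2) := by
  unfold hist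
  refine Primrec.nat_rec' (f := fun z : (ℕ × List ℕ) × ℕ => z.2)
    (g := fun _ => ([] : List Cert))
    (h := fun z (y : ℕ × List Cert) => step cD cX k c0 z.1.1 y.2 (z.1.2.take y.1) y.1)
    Primrec.snd (Primrec.const _) ?_
  refine (step_primrec cD cX k c0).comp
    (g := fun x : ((ℕ × List ℕ) × ℕ) × (ℕ × List Cert) =>
      ((x.1.1.1, x.2.2), (x.1.1.2.take x.2.1, x.2.1))) ?_
  refine Primrec.pair (Primrec.pair ?_ (Primrec.snd.comp Primrec.snd))
    (Primrec.pair ?_ (Primrec.fst.comp Primrec.snd))
  · exact Primrec.fst.comp (Primrec.fst.comp Primrec.fst)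
  · exact Primrec.list_take.comp (Primrec.fst.comp Primrec.snd)
      (Primrec.snd.comp (Primrec.fst.comp Primrec.fst))

theorem insN_primrec : Primrec₂ insN := by
  unfold insN
  refine prim_bcond (mem_primrec Primrec.fst Primrec.snd) Primrec.fst ?_
  exact Primrec.list_append.comp Primrec.fst (Primrec.list_cons.comp Primrec.snd (Primrec.const []))

theorem CL_primrec : Primrec (fun z : ℕ × List Cert => CL z.1 z.2) := by
  have h : Primrec (fun z : ℕ × List Cert => (z.2.rec (motive := fun _ => Cert) []
      (fun H h ih =>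
        (H.filter (fun q => decide (2 ^ z.1 ≤ cw z.1 (H :: h) q))).foldl insN ih) : Cert)) := by
    refine Primrec.list_rec (f := fun z : ℕ × List Cert => z.2) (g := fun _ => ([] : Cert))
      (h := fun z (y : Cert × List Cert × Cert) =>
        (y.1.filter (fun q => decide (2 ^ z.1 ≤ cw z.1 (y.1 :: y.2.1) q))).foldl insN y.2.2)
      Primrec.snd (Primrec.const _) ?_
    refine Primrec.list_foldl
      (f := fun x : (ℕ × List Cert) × (Cert × List Cert × Cert) =>
        x.2.1.filter (fun q => decide (2 ^ x.1.1 ≤ cw x.1.1 (x.2.1 :: x.2.2.1) q)))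
      (g := fun x => x.2.2.2) (h := fun _ (y : Cert × (Str × ℕ)) => insN y.1 y.2)
      ?_ (Primrec.snd.comp (Primrec.snd.comp Primrec.snd)) (insN_primrec.comp
        (Primrec.fst.comp Primrec.snd) (Primrec.snd.comp Primrec.snd))
    refine prim_filter (f := fun x : (ℕ × List Cert) × (Cert × List Cert × Cert) => x.2.1)
      (p := fun x q => decide (2 ^ x.1.1 ≤ cw x.1.1 (x.2.1 :: x.2.2.1) q))
      (Primrec.fst.comp Primrec.snd) ?_
    refine prim_dle (prim_pow (Primrec.const 2) (Primrec.fst.comp (Primrec.fst.comp Primrec.fst)))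
      ?_
    refine cw_primrec.comp
      (g := fun x : ((ℕ × List Cert) × (Cert × List Cert × Cert)) × (Str × ℕ) =>
        ((x.1.1.1, x.1.2.1 :: x.1.2.2.1), x.2)) ?_
    refine Primrec.pair (Primrec.pair (Primrec.fst.comp (Primrec.fst.comp Primrec.fst)) ?_)
      Primrec.snd
    exact Primrec.list_cons.comp (Primrec.fst.comp (Primrec.snd.comp Primrec.fst))
      (Primrec.fst.comp (Primrec.snd.comp (Primrec.snd.comp Primrec.fst)))
  refine h.of_eq fun z => ?_
  obtain ⟨N, h⟩ := z
  induction h with
  | nil => rfl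
  | cons H h ih =>
    simp only [CL] at ih ⊢
    rw [ih]

theorem Th_primrec : Primrec₂ (Th cD cX k c0) := by
  unfold Th
  have hp1 : Primrec (fun x : List ℕ × (Str × Str) => (parse1 x.2.1).unpair) :=
    Primrec.unpair.comp (parse1_primrec.comp (Primrec.fst.comp Primrec.snd))
  have hn : Primrec (fun x : List ℕ × (Str × Str) => (parse1 x.2.1).unpair.1) :=
    Primrec.fst.comp hp1
  have hm : Primrec (fun x : List ℕ × (Str × Str) => (parse1 x.2.1).unpair.2) :=
    Primrec.snd.comp hp1
  have hj : Primrec (fun x : List ℕ × (Str × Str) => parse2 x.2.1) :=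
    parse2_primrec.comp (Primrec.fst.comp Primrec.snd)
  refine Primrec.option_map
    (f := fun x : List ℕ × (Str × Str) =>
      ((CL ((parse1 x.2.1).unpair.1 + c0) (hist cD cX k c0 (parse1 x.2.1).unpair.1 x.1
        x.1.length)).filter (fun q => decide (q.2 = (parse1 x.2.1).unpair.2)))[parse2 x.2.1]?)
    (g := fun _ q => q.1) ?_ (Primrec.fst.comp Primrec.snd)
  refine Primrec.list_getElem?.comp ?_ hj
  refine prim_filter
    (f := fun x : List ℕ × (Str × Str) =>
      CL ((parse1 x.2.1).unpair.1 + c0) (hist cD cX k c0 (parse1 x.2.1).unpair.1 x.1 x.1.length))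
    (p := fun x q => decide (q.2 = (parse1 x.2.1).unpair.2)) ?_ ?_
  · refine CL_primrec.comp
      (g := fun x : List ℕ × (Str × Str) => ((parse1 x.2.1).unpair.1 + c0,
        hist cD cX k c0 (parse1 x.2.1).unpair.1 x.1 x.1.length)) ?_
    refine Primrec.pair (Primrec.nat_add.comp hn (Primrec.const c0)) ?_
    refine (hist_primrec cD cX k c0).comp
      (g := fun x : List ℕ × (Str × Str) => (((parse1 x.2.1).unpair.1, x.1), x.1.length)) ?_
    exact Primrec.pair (Primrec.pair hn Primrec.fst) (Primrec.list_length.comp Primrec.fst)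
  · exact prim_deq (Primrec.snd.comp Primrec.snd) (hm.comp Primrec.fst)

end prim

end Pool.Agent.Lib.MP_f7c71a_lc
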